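import Pool.Agent.JB.Defs

/-!
Judicious bipartitions (MP_abf15b_co): basic lemmas on `E`, `Q`, `P`.
-/

set_option autoImplicit false
set_option linter.unusedSectionVars false
set_option linter.unusedVariables false

namespace Pool.Agent.JB

open Finset

variable {V : Type} [Fintype V] [DecidableEq V]

section E

variable {w : V → V → ℝ}

theorem E_empty_left (T : Finset V) : E w ∅ T = 0 := by simp [E]

theorem E_empty_right (S : Finset V) : E w S ∅ = 0 := by simp [E]

theorem E_comm (hw : IsSym w) (S T : Finset V) : E w S T = E w T S := by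
  unfold E
  rw [Finset.sum_comm]
  exact Finset.sum_congr rfl fun u _ => Finset.sum_congr rfl fun v _ => hw.symm v u

theorem E_union_left {S T : Finset V} (h : Disjoint S T) (R : Finset V) :
    E w (S ∪ T) R = E w S R + E w T R := by
  unfold E; rw [Finset.sum_union h]

theorem E_union_right (R : Finset V) {S T : Finset V} (h : Disjoint S T) :
    E w R (S ∪ T) = E w R S + E w R T := by
  unfold E; rw [← Finset.sum_add_distrib]
  exact Finset.sum_congr rfl fun u _ => Finset.sum_union h

theorem E_insert_left {v : V} {S : Finset V} (h : v ∉ S) (R : Finset V) :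
    E w (insert v S) R = E w {v} R + E w S R := by
  unfold E; rw [Finset.sum_insert h, Finset.sum_singleton]

theorem E_insert_right (R : Finset V) {v : V} {S : Finset V} (h : v ∉ S) :
    E w R (insert v S) = E w R {v} + E w R S := by
  unfold E; rw [← Finset.sum_add_distrib]
  exact Finset.sum_congr rfl fun u _ => by rw [Finset.sum_insert h, Finset.sum_singleton]

theorem E_sdiff_left {S T : Finset V} (h : S ⊆ T) (R : Finset V) :
    E w (T \ S) R = E w T R - E w S R := by
  unfold E
  have := Finset.sum_sdiff (f := fun u => ∑ v ∈ R, w u v) h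
  linarith

theorem E_sdiff_right (R : Finset V) {S T : Finset V} (h : S ⊆ T) :
    E w R (T \ S) = E w R T - E w R S := by
  unfold E
  rw [← Finset.sum_sub_distrib]
  refine Finset.sum_congr rfl fun u _ => ?_
  have := Finset.sum_sdiff (f := fun v => w u v) h
  linarith

theorem E_erase_left {v : V} {S : Finset V} (h : v ∈ S) (R : Finset V) :
    E w (S.erase v) R = E w S R - E w {v} R := by
  have := E_insert_left (w := w) (Finset.notMem_erase v S) R
  rw [Finset.insert_erase h] at this
  linarith

theorem E_erase_right (R : Finset V) {v : V} {S : Finset V} (h : v ∈ S) :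
    E w R (S.erase v) = E w R S - E w R {v} := by
  have := E_insert_right (w := w) R (Finset.notMem_erase v S)
  rw [Finset.insert_erase h] at this
  linarith

theorem E_singleton_singleton (u v : V) : E w {u} {v} = w u v := by simp [E]

theorem E_singleton_left (u : V) (S : Finset V) : E w {u} S = ∑ v ∈ S, w u v := by simp [E]

theorem E_singleton_right (S : Finset V) (u : V) : E w S {u} = ∑ v ∈ S, w v u := by simp [E]

theorem E_eq_sum_left (S T : Finset V) : E w S T = ∑ v ∈ S, E w {v} T := by simp [E]

theorem E_self (hw : IsSym w) (v : V) : E w {v} {v} = 0 := by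
  rw [E_singleton_singleton, hw.diag]

/-- `E (insert v S) (insert v S) = E S S + 2 E {v} S` -/
theorem E_insert_insert (hw : IsSym w) {v : V} {S : Finset V} (h : v ∉ S) :
    E w (insert v S) (insert v S) = E w S S + 2 * E w {v} S := by
  rw [E_insert_left h, E_insert_right _ h, E_insert_right _ h, E_self hw, E_comm hw S {v}]
  ring

theorem E_union_union (hw : IsSym w) {S T : Finset V} (h : Disjoint S T) :
    E w (S ∪ T) (S ∪ T) = E w S S + E w T T + 2 * E w S T := by
  rw [E_union_left h, E_union_right _ h, E_union_right _ h, E_comm hw T S]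
  ring

theorem E_erase_erase (hw : IsSym w) {v : V} {S : Finset V} (h : v ∈ S) :
    E w (S.erase v) (S.erase v) = E w S S - 2 * E w {v} S := by
  have h1 := E_insert_insert hw (Finset.notMem_erase v S)
  rw [Finset.insert_erase h] at h1
  have h2 := E_erase_right (w := w) {v} h
  rw [E_self hw] at h2
  linarith

theorem E_sdiff_sdiff (hw : IsSym w) {S T : Finset V} (h : S ⊆ T) :
    E w (T \ S) (T \ S) = E w T T - 2 * E w S T + E w S S := by
  rw [E_sdiff_left h, E_sdiff_right _ h, E_sdiff_right _ h, E_comm hw T S]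
  ring

theorem E_compl_right (S T : Finset V) : E w S Tᶜ = E w S univ - E w S T := by
  have h := E_union_right (w := w) S (disjoint_compl_right (a := T))
  rw [Finset.union_compl] at h
  linarith

theorem E_compl_left (S T : Finset V) : E w Sᶜ T = E w univ T - E w S T := by
  have h := E_union_left (w := w) (disjoint_compl_right (a := S)) T
  rw [Finset.union_compl] at h
  linarith

/-- total = inside + inside + twice the cut -/
theorem E_total (hw : IsSym w) (S : Finset V) :
    E w univ univ = E w S S + E w Sᶜ Sᶜ + 2 * E w S Sᶜ := by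
  have h := E_union_union hw (disjoint_compl_right (a := S))
  rwa [Finset.union_compl] at h

end E

section nonneg

variable {w : V → V → ℝ}

theorem IsW.nonneg (hw : IsW w) (u v : V) : 0 ≤ w u v := by
  rcases hw.zo u v with h | h <;> rw [h] <;> norm_num

theorem IsW.le_one (hw : IsW w) (u v : V) : w u v ≤ 1 := by
  rcases hw.zo u v with h | h <;> rw [h] <;> norm_num

theorem E_nonneg (hw : IsW w) (S T : Finset V) : 0 ≤ E w S T :=
  Finset.sum_nonneg fun u _ => Finset.sum_nonneg fun v _ => hw.nonneg u v

theorem E_mono_left (hw : IsW w) {S S' : Finset V} (h : S ⊆ S') (T : Finset V) :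
    E w S T ≤ E w S' T :=
  Finset.sum_le_sum_of_subset_of_nonneg h fun u _ _ =>
    Finset.sum_nonneg fun v _ => hw.nonneg u v

theorem E_mono_right (hw : IsW w) (S : Finset V) {T T' : Finset V} (h : T ⊆ T') :
    E w S T ≤ E w S T' :=
  Finset.sum_le_sum fun u _ =>
    Finset.sum_le_sum_of_subset_of_nonneg h fun v _ _ => hw.nonneg u v

theorem E_mono (hw : IsW w) {S S' T T' : Finset V} (h : S ⊆ S') (h' : T ⊆ T') :
    E w S T ≤ E w S' T' :=
  (E_mono_left hw h T).trans (E_mono_right hw S' h')

theorem E_le_card_mul (hw : IsW w) (S T : Finset V) : E w S T ≤ (S.card : ℝ) * T.card := by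
  unfold E
  calc ∑ u ∈ S, ∑ v ∈ T, w u v ≤ ∑ _u ∈ S, ∑ _v ∈ T, (1 : ℝ) :=
        Finset.sum_le_sum fun u _ => Finset.sum_le_sum fun v _ => hw.le_one u v
    _ = _ := by simp

theorem E_single_le (hw : IsW w) (v : V) (T : Finset V) : E w {v} T ≤ (T.card : ℝ) := by
  have := E_le_card_mul hw {v} T
  simpa using this

theorem E_single_le_of_mem (hw : IsW w) {v : V} {T : Finset V} (h : v ∈ T) :
    E w {v} T ≤ (T.card : ℝ) - 1 := by
  have h1 := E_single_le hw v (T.erase v)
  have h2 := E_erase_right (w := w) {v} h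
  rw [E_self hw.toIsSym] at h2
  have h3 : ((T.erase v).card : ℝ) = (T.card : ℝ) - 1 := by
    rw [Finset.card_erase_of_mem h, Nat.cast_sub (Finset.card_pos.2 ⟨v, h⟩)]; simp
  linarith

theorem E_self_le (hw : IsW w) (S : Finset V) : E w S S ≤ (S.card : ℝ) * (S.card - 1) := by
  rw [E_eq_sum_left]
  calc ∑ v ∈ S, E w {v} S ≤ ∑ _v ∈ S, ((S.card : ℝ) - 1) :=
        Finset.sum_le_sum fun v hv => E_single_le_of_mem hw hv
    _ = _ := by rw [Finset.sum_const, nsmul_eq_mul]

/-- the number of non-neighbours does not grow when the set shrinks -/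
theorem nonnbr_mono (hw : IsW w) {v : V} {R C : Finset V} (hv : v ∈ R) (h : R ⊆ C) :
    (R.card : ℝ) - 1 - E w {v} R ≤ (C.card : ℝ) - 1 - E w {v} C := by
  have h1 := E_sdiff_right (w := w) {v} h
  have h2 := E_single_le hw v (C \ R)
  have h3 : ((C \ R).card : ℝ) = (C.card : ℝ) - R.card := by
    rw [Finset.card_sdiff_of_subset h, Nat.cast_sub (Finset.card_le_card h)]
  linarith

end nonneg

section Q

variable {w : V → V → ℝ}

theorem P_mono {S : Finset V} {x y : ℝ} (h : x ≤ y) (hp : P w S x) : P w S y := by
  obtain ⟨s, hs, hq⟩ := hp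
  exact ⟨s, hs, hq.trans h⟩

theorem P_empty : P w ∅ 0 := ⟨fun _ => 1, fun _ => Or.inl rfl, by simp [Q]⟩

theorem P_singleton (hw : IsSym w) (v : V) : P w {v} 0 :=
  ⟨fun _ => 1, fun _ => Or.inl rfl, by simp [Q, hw.diag]⟩

theorem Q_congr {s s' : V → ℝ} {S : Finset V} (h : ∀ v ∈ S, s v = s' v) :
    Q w s S = Q w s' S := by
  unfold Q
  exact Finset.sum_congr rfl fun u hu => Finset.sum_congr rfl fun v hv => by
    rw [h u hu, h v hv]

theorem Q_neg (s : V → ℝ) (S : Finset V) : Q w (fun v => - s v) S = Q w s S := by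
  unfold Q
  exact Finset.sum_congr rfl fun u hu => Finset.sum_congr rfl fun v hv => by ring

theorem Q_union (hw : IsSym w) (s : V → ℝ) {S T : Finset V} (h : Disjoint S T) :
    Q w s (S ∪ T) = Q w s S + Q w s T + 2 * ∑ u ∈ S, ∑ v ∈ T, w u v * s u * s v := by
  unfold Q
  rw [Finset.sum_union h]
  have h1 : ∀ u, ∑ v ∈ S ∪ T, w u v * s u * s v =
      ∑ v ∈ S, w u v * s u * s v + ∑ v ∈ T, w u v * s u * s v := fun u =>
    Finset.sum_union h
  simp only [h1, Finset.sum_add_distrib]
  have h2 : ∑ u ∈ T, ∑ v ∈ S, w u v * s u * s v = ∑ u ∈ S, ∑ v ∈ T, w u v * s u * s v := by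
    rw [Finset.sum_comm]
    exact Finset.sum_congr rfl fun u _ => Finset.sum_congr rfl fun v _ => by
      rw [hw.symm v u]; ring
  rw [h2]; ring

theorem P_union (hw : IsSym w) {S T : Finset V} {x y : ℝ} (h : Disjoint S T)
    (h1 : P w S x) (h2 : P w T y) : P w (S ∪ T) (x + y) := by
  obtain ⟨s, hs, hq⟩ := h1
  obtain ⟨s', hs', hq'⟩ := h2
  have key : ∀ ε : ℝ, (ε = 1 ∨ ε = -1) →
      ∃ r : V → ℝ, (∀ v, r v = 1 ∨ r v = -1) ∧ Q w r (S ∪ T) =
        Q w s S + Q w s' T + 2 * (ε * ∑ u ∈ S, ∑ v ∈ T, w u v * s u * s' v) := by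
    intro ε hε
    refine ⟨fun v => if v ∈ S then s v else ε * s' v, fun v => ?_, ?_⟩
    · by_cases hv : v ∈ S
      · simpa [hv] using hs v
      · rcases hε with rfl | rfl <;> rcases hs' v with h' | h' <;> simp [hv, h']
    · rw [Q_union hw _ h]
      have e1 : Q w (fun v => if v ∈ S then s v else ε * s' v) S = Q w s S :=
        Q_congr fun v hv => by simp [hv]
      have e2 : Q w (fun v => if v ∈ S then s v else ε * s' v) T = Q w s' T := by
        rw [Q_congr (s' := fun v => ε * s' v) fun v hv => by
          simp [Finset.disjoint_right.1 h hv]]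
        rcases hε with rfl | rfl
        · simp
        · simp only [neg_mul, one_mul]; exact Q_neg _ _
      rw [e1, e2]
      congr 2
      rw [Finset.mul_sum]
      refine Finset.sum_congr rfl fun u hu => ?_
      rw [Finset.mul_sum]
      refine Finset.sum_congr rfl fun v hv => ?_
      simp only [hu, if_true, Finset.disjoint_right.1 h hv, if_false]
      ring
  by_cases hc : ∑ u ∈ S, ∑ v ∈ T, w u v * s u * s' v ≤ 0
  · obtain ⟨r, hr, hQ⟩ := key 1 (Or.inl rfl)
    exact ⟨r, hr, by rw [hQ]; linarith⟩
  · obtain ⟨r, hr, hQ⟩ := key (-1) (Or.inr rfl)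
    exact ⟨r, hr, by rw [hQ]; push Not at hc; linarith⟩

theorem P_insert (hw : IsSym w) {S : Finset V} {x : ℝ} {v : V} (h : v ∉ S)
    (h1 : P w S x) : P w (insert v S) x := by
  have := P_union hw (Finset.disjoint_singleton_left.2 h) (P_singleton hw v) h1
  rw [zero_add] at this
  rwa [Finset.insert_eq]

/-- sign sums extend to any superset for free -/
theorem P_superset (hw : IsSym w) {S T : Finset V} {x : ℝ} (h : S ⊆ T) (h1 : P w S x) :
    P w T x := by
  have key : ∀ R : Finset V, Disjoint R S → P w (R ∪ S) x := by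
    intro R
    induction R using Finset.induction_on with
    | empty => intro _; simpa using h1
    | insert a R ha ih =>
      intro hd
      rw [Finset.disjoint_insert_left] at hd
      rw [Finset.insert_union]
      exact P_insert hw (by simp [ha, hd.1]) (ih hd.2)
  have := key (T \ S) Finset.sdiff_disjoint
  rwa [Finset.sdiff_union_of_subset h] at this

/-- a block: `S` positive, `T` negative -/
theorem P_block (hw : IsSym w) {S T : Finset V} (h : Disjoint S T) :
    P w (S ∪ T) (E w S S + E w T T - 2 * E w S T) := by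
  refine ⟨fun v => if v ∈ S then 1 else -1, fun v => ?_, ?_⟩
  · by_cases hv : v ∈ S <;> simp [hv]
  · rw [Q_union hw _ h]
    have e1 : Q w (fun v => if v ∈ S then (1 : ℝ) else -1) S = E w S S := by
      unfold Q E
      exact Finset.sum_congr rfl fun u hu => Finset.sum_congr rfl fun v hv => by simp [hu, hv]
    have e2 : Q w (fun v => if v ∈ S then (1 : ℝ) else -1) T = E w T T := by
      unfold Q E
      exact Finset.sum_congr rfl fun u hu => Finset.sum_congr rfl fun v hv => by
        simp [Finset.disjoint_right.1 h hu, Finset.disjoint_right.1 h hv]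
    have e3 : ∑ u ∈ S, ∑ v ∈ T, w u v * (if u ∈ S then (1 : ℝ) else -1) *
        (if v ∈ S then (1 : ℝ) else -1) = - E w S T := by
      unfold E
      rw [← Finset.sum_neg_distrib]
      refine Finset.sum_congr rfl fun u hu => ?_
      rw [← Finset.sum_neg_distrib]
      exact Finset.sum_congr rfl fun v hv => by
        simp [hu, Finset.disjoint_right.1 h hv]
    rw [e1, e2, e3]
    linarith

/-- from a sign sum on any set to a cut of the whole graph -/
theorem P_cut (hw : IsSym w) {C : Finset V} {x : ℝ} (h : P w C x) :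
    ∃ S : Finset V, (E w univ univ - x) / 4 ≤ E w S Sᶜ := by
  obtain ⟨s, hs, hq⟩ := P_superset hw (Finset.subset_univ C) h
  refine ⟨univ.filter fun v => s v = 1, ?_⟩
  set S := univ.filter fun v => s v = 1 with hS
  have hQ : Q w s univ = E w S S + E w Sᶜ Sᶜ - 2 * E w S Sᶜ := by
    have h1 := Q_union hw s (disjoint_compl_right (a := S))
    rw [Finset.union_compl] at h1
    rw [h1]
    have hp : ∀ v ∈ S, s v = 1 := fun v hv => by simpa [hS] using hv
    have hn : ∀ v ∈ Sᶜ, s v = -1 := fun v hv => by
      rcases hs v with h' | h'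
      · exact absurd (by simpa [hS] using h' : v ∈ S) (Finset.mem_compl.1 hv)
      · exact h'
    have e1 : Q w s S = E w S S := by
      unfold Q E
      exact Finset.sum_congr rfl fun u hu => Finset.sum_congr rfl fun v hv => by
        rw [hp u hu, hp v hv]; ring
    have e2 : Q w s Sᶜ = E w Sᶜ Sᶜ := by
      unfold Q E
      exact Finset.sum_congr rfl fun u hu => Finset.sum_congr rfl fun v hv => by
        rw [hn u hu, hn v hv]; ring
    have e3 : ∑ u ∈ S, ∑ v ∈ Sᶜ, w u v * s u * s v = - E w S Sᶜ := by
      unfold E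
      rw [← Finset.sum_neg_distrib]
      refine Finset.sum_congr rfl fun u hu => ?_
      rw [← Finset.sum_neg_distrib]
      exact Finset.sum_congr rfl fun v hv => by
        rw [hp u hu, hn v hv]; ring
    rw [e1, e2, e3]; ring
  have hT := E_total hw S
  linarith

end Q

end Pool.Agent.JB
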