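import Pool.Agent.JB.Stmts

/-!
Judicious bipartitions (MP_abf15b_co): module CORE, the dense set.
-/

set_option autoImplicit false
set_option linter.unusedSectionVars false
set_option linter.unusedVariables false

namespace Pool.Agent.JB

open Finset

section

variable {V : Type} [Fintype V] [DecidableEq V] {w : V → V → ℝ}

theorem E_nat (hw : IsW w) (S T : Finset V) : ∃ n : ℕ, E w S T = n := by
  have h : ∀ u v, ∃ n : ℕ, w u v = n := fun u v => by
    rcases hw.zo u v with h | h
    · exact ⟨0, by simp [h]⟩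
    · exact ⟨1, by simp [h]⟩
  choose f hf using h
  refine ⟨∑ u ∈ S, ∑ v ∈ T, f u v, ?_⟩
  unfold E
  push_cast
  exact Finset.sum_congr rfl fun u _ => Finset.sum_congr rfl fun v _ => hf u v

theorem E_union_le (hw : IsW w) (S T R : Finset V) : E w (S ∪ T) R ≤ E w S R + E w T R := by
  have h1 : S ∪ T = S ∪ (T \ S) := (Finset.union_sdiff_self_eq_union).symm
  rw [h1, E_union_left Finset.disjoint_sdiff]
  have := E_mono_left hw (Finset.sdiff_subset (s := T) (t := S)) R
  linarith

theorem ee_sum' (A S : Finset V) : ee w A S = ∑ v ∈ S, ee w A {v} := by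
  unfold ee
  rw [Finset.sum_sub_distrib, ← E_eq_sum_left, ← E_eq_sum_left]

theorem big_subset (t : ℕ) (δ : ℝ) (A : Finset V) : big w t δ A ⊆ A := by
  unfold big; exact Finset.filter_subset _ _

theorem mem_big {t : ℕ} {δ : ℝ} {A : Finset V} {v : V} :
    v ∈ big w t δ A ↔ v ∈ A ∧ (t : ℝ) - 4 * δ < E w {v} A := by
  unfold big; simp only [Finset.mem_filter]

/-- numeric consequences for one side -/
theorem side {t : ℕ} {τ ν δ : ℝ} (hD : Data w t τ ν δ) (h1 : 1 ≤ δ) {A : Finset V}
    (L : L1 w t τ δ A) (hy : -1 ≤ yy w τ A) :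
    (2 * zz w τ A ≤ yy w τ A) ∧
    ((big w t δ A).card : ℝ) ≤ t + 6 * δ ∧
    E w (A \ big w t δ A) univ < 4 * δ + 2 * zz w τ A + yy w τ A ∧
    ∀ v ∈ big w t δ A, 2 * t - 7 * δ ≤ E w {v} univ := by
  have hw := hD.isW
  have hs := hw.toIsSym
  have ht : (100 : ℝ) ≤ t := by exact_mod_cast hD.ht
  have hz := L.z_lo
  have hyz := L.yz
  have hlo := hD.lo
  have hhi := hD.hi
  have hδν := hD.hδν
  have htδ : 1000 * δ ≤ t := by linarith
  have heA : ee w A A = yy w τ A - 2 * zz w τ A := L.e_sum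
  have e1 : 0 ≤ ee w A A := by rw [ee_sum']; exact Finset.sum_nonneg L.e_nonneg
  have huniv : ∀ S : Finset V, E w S univ = E w S A + E w S Aᶜ := by
    intro S; rw [E_compl_right]; ring
  refine ⟨by linarith, ?_, ?_, ?_⟩
  · have h2 : ((big w t δ A).card : ℝ) * (t + yy w τ A + zz w τ A - δ) ≤ τ + yy w τ A := by
      have h3 : E w (big w t δ A) Aᶜ ≤ E w A Aᶜ := E_mono_left hw (big_subset t δ A) _
      have h4 : E w A Aᶜ = τ + yy w τ A := by unfold yy; ring
      have h5 : ((big w t δ A).card : ℝ) * (t + yy w τ A + zz w τ A - δ) ≤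
          E w (big w t δ A) Aᶜ := by
        rw [E_eq_sum_left, ← nsmul_eq_mul, ← Finset.sum_const]
        exact Finset.sum_le_sum fun v hv => (L.dB v hv).le
      linarith
    by_contra hc
    push Not at hc
    set n : ℝ := ((big w t δ A).card : ℝ)
    have h3 : (t : ℝ) - 1 - 2 * δ ≤ t + yy w τ A + zz w τ A - δ := by linarith
    have h4 : (t + 6 * δ) * ((t : ℝ) - 1 - 2 * δ) ≤ n * (t + yy w τ A + zz w τ A - δ) := by
      have : (0 : ℝ) ≤ t - 1 - 2 * δ := by linarith
      calc (t + 6 * δ) * ((t : ℝ) - 1 - 2 * δ) ≤ n * ((t : ℝ) - 1 - 2 * δ) :=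
            mul_le_mul_of_nonneg_right hc.le this
        _ ≤ n * (t + yy w τ A + zz w τ A - δ) :=
            mul_le_mul_of_nonneg_left h3 (by positivity)
    have h5 : yy w τ A < 2 * δ := by linarith
    nlinarith [mul_nonneg (by linarith : (0:ℝ) ≤ δ - 1) (by linarith : (0:ℝ) ≤ (t:ℝ)),
      mul_nonneg (by linarith : (0:ℝ) ≤ δ) (by linarith : (0:ℝ) ≤ (t:ℝ) - 1000 * δ)]
  · have h2 : E w (A \ big w t δ A) univ = 2 * E w (A \ big w t δ A) A +
        ee w A (A \ big w t δ A) := by
      rw [huniv]; unfold ee; ring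
    have h3 : ee w A (A \ big w t δ A) ≤ ee w A A := by
      rw [ee_sum', ee_sum' A A]
      exact Finset.sum_le_sum_of_subset_of_nonneg Finset.sdiff_subset
        (fun u hu _ => L.e_nonneg u hu)
    have h4 := L.rest
    linarith
  · intro v hv
    have h2 := L.dB v hv
    have h3 := (mem_big.1 hv).2
    rw [huniv]
    linarith

end

theorem core (hE : EdwStmt) (hA : L1aStmt) (hB : L1bStmt) : CoreStmt := by
  intro V _ _ w t τ ν δ hD h1 hF A hM
  have hw := hD.isW
  have hs := hw.toIsSym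
  have ht : (100 : ℝ) ≤ t := by exact_mod_cast hD.ht
  have hlo := hD.lo
  have hhi := hD.hi
  have hδν := hD.hδν
  have htδ : 1000 * δ ≤ t := by linarith
  have hAB : E w A Aᶜ = τ + yy w τ A := by unfold yy; ring
  have hAA : E w A A = τ + 2 * zz w τ A := by unfold zz; ring
  have hBB : E w Aᶜ Aᶜ = τ - 2 * t - 2 * yy w τ A - 2 * zz w τ A := by
    have h1 := E_total hs A
    rw [hD.tot, hAA, hAB] at h1
    linarith
  have hy : -1 ≤ yy w τ A := by
    obtain ⟨S, hS⟩ := hE V w t τ ν δ hD
    have := hM.max S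
    linarith
  have L := hB V w t τ ν δ hD A (hA V w t τ ν δ hD hF A hM)
  obtain ⟨s1, s2, s3, s4⟩ := side hD h1 L hy
  have hz := L.z_lo
  have hyz := L.yz
  have hcard := L.card
  -- the vertex v0
  obtain ⟨v0, hv0, he0⟩ : ∃ v0 ∈ big w t δ A, ee w A {v0} = 0 := by
    by_contra hc
    push Not at hc
    have h2 : ∀ v ∈ big w t δ A, (1 : ℝ) ≤ ee w A {v} := by
      intro v hv
      have h3 := L.e_nonneg v (big_subset t δ A hv)
      have h4 := hc v hv
      obtain ⟨a, ha⟩ := E_nat hw {v} Aᶜ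
      obtain ⟨b, hb⟩ := E_nat hw {v} A
      unfold ee at h3 h4 ⊢
      rw [ha, hb] at h3 h4 ⊢
      have h5 : b ≤ a := by exact_mod_cast sub_nonneg.1 h3
      have h6 : b ≠ a := fun h => h4 (by rw [h]; ring)
      have h7 : b + 1 ≤ a := by omega
      have h8 : (b : ℝ) + 1 ≤ a := by exact_mod_cast h7
      linarith
    have h3 : ((big w t δ A).card : ℝ) ≤ ∑ v ∈ big w t δ A, ee w A {v} := by
      calc ((big w t δ A).card : ℝ) = ∑ _v ∈ big w t δ A, (1 : ℝ) := by simp
        _ ≤ _ := Finset.sum_le_sum h2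
    have h4 : ∑ v ∈ big w t δ A, ee w A {v} ≤ ee w A A := by
      rw [ee_sum' A A]
      exact Finset.sum_le_sum_of_subset_of_nonneg (big_subset t δ A)
        (fun u hu _ => L.e_nonneg u hu)
    have h5 := L.e_sum
    have h6 : (t : ℝ) + 1 ≤ (big w t δ A).card := by exact_mod_cast hcard
    linarith
  have hv0A : v0 ∈ A := big_subset t δ A hv0
  have hd : E w {v0} Aᶜ = E w {v0} A := by unfold ee at he0; linarith
  have hd1 := L.dB v0 hv0
  -- the second max cut
  obtain ⟨A0, hA0def⟩ : ∃ A0 : Finset V, A0 = insert v0 Aᶜ := ⟨_, rfl⟩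
  have hA0c : A0ᶜ = A.erase v0 := by
    subst hA0def
    ext x; simp only [Finset.mem_compl, Finset.mem_erase, Finset.mem_insert]; tauto
  have hv0c : v0 ∉ Aᶜ := by simpa using hv0A
  have hcut : E w A0 A0ᶜ = E w A Aᶜ := by
    rw [hA0c, hA0def, E_insert_left hv0c, E_erase_right _ hv0A, E_erase_right _ hv0A,
      E_self hs, E_comm hs Aᶜ {v0}, hd, E_comm hs Aᶜ A]
    ring
  have hM0 : MaxCut w A0 := by
    refine ⟨fun S => ?_, ?_⟩
    · rw [hcut]; exact hM.max S
    · rw [hA0c, hA0def, E_erase_erase hs hv0A, E_insert_insert hs hv0c, hAA, hBB, hd]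
      rw [hd] at hd1
      linarith
  have hy0 : yy w τ A0 = yy w τ A := by unfold yy; rw [hcut]
  have L0 := hB V w t τ ν δ hD A0 (hA V w t τ ν δ hD hF A0 hM0)
  obtain ⟨r1, r2, r3, r4⟩ := side hD h1 L0 (by rw [hy0]; exact hy)
  have hz0 := L0.z_lo
  have hyz0 := L0.yz
  rw [hy0] at r1 r3 hyz0
  have hcard0 := L0.card
  -- the dense set
  have hcardC : 2 * t + 1 ≤ (big w t δ A ∪ big w t δ A0).card := by
    have h2 := Finset.card_union_add_card_inter (big w t δ A) (big w t δ A0)
    have h3 : (big w t δ A ∩ big w t δ A0).card ≤ 1 := by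
      have : big w t δ A ∩ big w t δ A0 ⊆ {v0} := by
        intro x hx
        rw [Finset.mem_inter] at hx
        have hx1 := big_subset t δ A hx.1
        have hx2 := big_subset t δ A0 hx.2
        rw [hA0def, Finset.mem_insert, Finset.mem_compl] at hx2
        rw [Finset.mem_singleton]
        tauto
      simpa using Finset.card_le_card this
    omega
  refine ⟨big w t δ A ∪ big w t δ A0, hw, h1, htδ, hcardC, ?_, ?_⟩
  · -- non-neighbours
    set C := big w t δ A ∪ big w t δ A0 with hC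
    have hcC : (C.card : ℝ) ≤ 2 * t + 12 * δ := by
      have : (C.card : ℝ) ≤ (big w t δ A).card + (big w t δ A0).card := by
        exact_mod_cast Finset.card_union_le _ _
      linarith
    have hout : E w Cᶜ univ ≤ 11 * δ := by
      have hsub : Cᶜ ⊆ (A \ big w t δ A) ∪ (A0 \ big w t δ A0) := by
        intro x hx
        rw [Finset.mem_compl, hC, Finset.mem_union] at hx
        push Not at hx
        rw [Finset.mem_union, Finset.mem_sdiff, Finset.mem_sdiff]
        by_cases hxA : x ∈ A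
        · exact Or.inl ⟨hxA, hx.1⟩
        · refine Or.inr ⟨?_, hx.2⟩
          rw [hA0def, Finset.mem_insert, Finset.mem_compl]
          exact Or.inr hxA
      have h2 := E_mono_left hw hsub univ
      have h3 := E_union_le hw (A \ big w t δ A) (A0 \ big w t δ A0) univ
      linarith
    intro v hv
    have h2 : 2 * t - 7 * δ ≤ E w {v} univ := by
      rw [hC, Finset.mem_union] at hv
      rcases hv with hv | hv
      · exact s4 v hv
      · exact r4 v hv
    have h3 := E_compl_right (w := w) {v} C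
    have h4 : E w {v} Cᶜ ≤ E w Cᶜ univ := by
      rw [E_comm hs {v} Cᶜ]
      exact E_mono_right hw _ (Finset.subset_univ _)
    linarith
  · -- missing edges
    set C := big w t δ A ∪ big w t δ A0 with hC
    have h3 : (2 * (t : ℝ) + 1) ≤ C.card := by exact_mod_cast hcardC
    have h4 : E w C C ≤ 4 * τ - 2 * t := by
      rw [← hD.tot]; exact E_mono hw (Finset.subset_univ _) (Finset.subset_univ _)
    nlinarith

end Pool.Agent.JB
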