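import Mathlib

/-!
Judicious bipartitions (MP_abf15b_co): weights, edge counts, sign sums.
All graphs are encoded by a symmetric 0/1 weight `w`; `E w S T` counts ordered pairs.
-/

set_option autoImplicit false

namespace Pool.Agent.JB

variable {V : Type} [Fintype V] [DecidableEq V]

/-- symmetric real weights with zero diagonal -/
structure IsSym (w : V → V → ℝ) : Prop where
  symm : ∀ u v, w u v = w v u
  diag : ∀ v, w v v = 0

/-- the 0/1 weight of a simple graph -/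
structure IsW (w : V → V → ℝ) : Prop extends IsSym w where
  zo : ∀ u v, w u v = 0 ∨ w u v = 1

/-- number of ordered pairs (weighted) -/
def E (w : V → V → ℝ) (S T : Finset V) : ℝ := ∑ u ∈ S, ∑ v ∈ T, w u v

/-- signed sum -/
def Q (w : V → V → ℝ) (s : V → ℝ) (S : Finset V) : ℝ :=
  ∑ u ∈ S, ∑ v ∈ S, w u v * s u * s v

/-- there is a sign function on `S` with signed sum at most `x` -/
def P (w : V → V → ℝ) (S : Finset V) (x : ℝ) : Prop :=
  ∃ s : V → ℝ, (∀ v, s v = 1 ∨ s v = -1) ∧ Q w s S ≤ x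

/-- standing data: total `E w univ univ = 2 m = 4 τ - 2 t`, `|τ - t^2| ≤ t - ν` -/
structure Data (w : V → V → ℝ) (t : ℕ) (τ ν δ : ℝ) : Prop where
  isW : IsW w
  ht : 100 ≤ t
  tot : E w Finset.univ Finset.univ = 4 * τ - 2 * t
  lo : (t : ℝ) ^ 2 - t + ν ≤ τ
  hi : τ ≤ (t : ℝ) ^ 2 + t - ν
  hν : 0 ≤ ν
  hδ : 0 ≤ δ
  hδν : 1000 * δ ≤ ν

/-- every bipartition is bad -/
def Fail (w : V → V → ℝ) (τ δ : ℝ) : Prop :=
  ∀ S : Finset V, τ - 2 * δ < E w S S ∨ τ - 2 * δ < E w Sᶜ Sᶜ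

/-- `A` is a maximum cut and its larger side -/
structure MaxCut (w : V → V → ℝ) (A : Finset V) : Prop where
  max : ∀ S : Finset V, E w S Sᶜ ≤ E w A Aᶜ
  big : E w Aᶜ Aᶜ ≤ E w A A

/-- the minimum over all bipartitions of the larger number of edges inside a part -/
noncomputable def gG {n : ℕ} (G : SimpleGraph (Fin n)) : ℕ :=
  open Classical in
  sInf {k : ℕ | ∃ S : Finset (Fin n),
    k = max (G.edgeFinset.filter (fun e => ∀ v ∈ e, v ∈ S)).card
            (G.edgeFinset.filter (fun e => ∀ v ∈ e, v ∉ S)).card}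

/-- `g m`: the maximum of `gG` over all graphs with `m` edges -/
noncomputable def g (m : ℕ) : ℕ :=
  open Classical in
  sSup {k : ℕ | ∃ n : ℕ, ∃ G : SimpleGraph (Fin n), G.edgeFinset.card = m ∧ k = gG G}

/-- `h m = m/4 + sqrt(m/32) - g m` -/
noncomputable def h (m : ℕ) : ℝ := (m : ℝ) / 4 + Real.sqrt ((m : ℝ) / 32) - g m

/-- distance from `m` to the set of the numbers `C(2j+1,2) = j (2j+1)` -/
noncomputable def dT (m : ℕ) : ℝ := ⨅ j : ℕ, |(m : ℝ) - (j : ℝ) * (2 * j + 1)|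

end Pool.Agent.JB
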