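import Pool.Agent.JB.Stmts

/-!
Judicious bipartitions (MP_abf15b_co): the Edwards-type bound (large cut).
-/

set_option autoImplicit false

namespace Pool.Agent.JB

open Finset

section

variable {V : Type} [Fintype V] [DecidableEq V]

/-- greedy colouring with `2 t + 2` colours -/
theorem edw_colour {w : V → V → ℝ} {t : ℕ} (hw : IsW w)
    (htot : E w univ univ ≤ 4 * (t : ℝ) ^ 2 + 2 * t) :
    ∀ (n : ℕ) (U : Finset V), U.card = n →
      ∃ c : V → Fin (2 * t + 2), ∀ u ∈ U, ∀ v ∈ U, c u = c v → w u v = 0 := by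
  intro n
  induction n with
  | zero =>
    intro U hU
    rw [Finset.card_eq_zero] at hU
    subst hU
    exact ⟨fun _ => ⟨0, by omega⟩, fun u hu => absurd hu (Finset.notMem_empty u)⟩
  | succ n ih =>
    intro U hU
    -- a vertex of small degree
    have hex : ∃ v ∈ U, E w {v} U < 2 * t + 2 := by
      by_contra hno
      push Not at hno
      have hne : U.Nonempty := by rw [← Finset.card_pos]; omega
      obtain ⟨v, hv⟩ := hne
      have h1 := hno v hv
      have h2 := E_single_le_of_mem hw hv
      have h3 : (2 * (t : ℝ) + 3) ≤ U.card := by linarith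
      have h4 : (U.card : ℝ) * (2 * t + 2) ≤ E w U U := by
        rw [E_eq_sum_left]
        calc (U.card : ℝ) * (2 * t + 2) = ∑ _v ∈ U, (2 * (t : ℝ) + 2) := by
              rw [Finset.sum_const, nsmul_eq_mul]
          _ ≤ _ := Finset.sum_le_sum hno
      have h5 := E_mono hw (Finset.subset_univ U) (Finset.subset_univ U)
      have h6 : (0 : ℝ) ≤ t := Nat.cast_nonneg t
      nlinarith
    obtain ⟨v, hv, hdeg⟩ := hex
    obtain ⟨c, hc⟩ := ih (U.erase v) (by rw [Finset.card_erase_of_mem hv]; omega)
    -- colours used by neighbours of v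
    set N := U.filter fun u => w v u = 1 with hN
    have hNc : (N.card : ℝ) = E w {v} U := by
      rw [E_singleton_left, hN, Finset.card_eq_sum_ones, Nat.cast_sum, Finset.sum_filter]
      refine Finset.sum_congr rfl fun u _ => ?_
      rcases hw.zo v u with h | h <;> simp [h]
    have hNc' : N.card < 2 * t + 2 := by
      have : (N.card : ℝ) < ((2 * t + 2 : ℕ) : ℝ) := by rw [hNc]; push_cast; exact hdeg
      exact_mod_cast this
    have hcol : ∃ a : Fin (2 * t + 2), a ∉ N.image c := by
      by_contra hno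
      push Not at hno
      have h1 : (Finset.univ : Finset (Fin (2 * t + 2))) ⊆ N.image c := fun a _ => hno a
      have h2 := Finset.card_le_card h1
      have h3 := Finset.card_image_le (s := N) (f := c)
      rw [Finset.card_univ, Fintype.card_fin] at h2
      omega
    obtain ⟨a, ha⟩ := hcol
    refine ⟨fun u => if u = v then a else c u, ?_⟩
    have key : ∀ u ∈ U, u ≠ v → c u = a → w v u = 0 := by
      intro u hu _ hcu
      rcases hw.zo v u with h | h
      · exact h
      · exact absurd (Finset.mem_image.2 ⟨u, Finset.mem_filter.2 ⟨hu, h⟩, hcu⟩) ha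
    intro u hu u' hu' heq
    by_cases h1 : u = v
    · by_cases h2 : u' = v
      · rw [h1, h2]; exact hw.diag v
      · simp only [h1, if_true, h2, if_false] at heq
        rw [h1]; exact key u' hu' h2 heq.symm
    · by_cases h2 : u' = v
      · simp only [h1, if_false, h2, if_true] at heq
        rw [h2, hw.symm]; exact key u hu h1 heq
      · simp only [h1, if_false, h2] at heq
        exact hc u (Finset.mem_erase.2 ⟨h1, hu⟩) u' (Finset.mem_erase.2 ⟨h2, hu'⟩) heq

end

theorem edw : SwapStmt → EdwStmt := by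
  intro hS V _ _ w t τ ν δ hD
  have hw := hD.isW
  have htot : E w univ univ ≤ 4 * (t : ℝ) ^ 2 + 2 * t := by
    rw [hD.tot]; have := hD.hi; have := hD.hν; linarith
  obtain ⟨c, hc⟩ := edw_colour hw htot _ (univ : Finset V) rfl
  set q : Fin (2 * t + 2) → Fin (2 * t + 2) → ℝ := fun i j =>
    E w (univ.filter fun v => c v = i) (univ.filter fun v => c v = j) with hq
  have hqs : IsSym q := by
    refine ⟨fun i j => E_comm hw.toIsSym _ _, fun i => ?_⟩
    simp only [hq, E]
    refine Finset.sum_eq_zero fun u hu => Finset.sum_eq_zero fun v hv => ?_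
    rw [Finset.mem_filter] at hu hv
    exact hc u (Finset.mem_univ u) v (Finset.mem_univ v) (hu.2.trans hv.2.symm)
  -- sums over colour classes
  have hfib : ∀ s : Fin (2 * t + 2) → ℝ, Q w (fun v => s (c v)) univ = Q q s univ := by
    intro s
    unfold Q
    have h1 : ∀ f : V → ℝ, ∑ v, f v = ∑ i, ∑ v ∈ univ.filter (fun v => c v = i), f v := by
      intro f
      exact (Finset.sum_fiberwise (s := univ) (g := c) (f := f)).symm
    rw [h1]
    refine Finset.sum_congr rfl fun i _ => ?_
    have h2 : ∀ u ∈ univ.filter (fun v => c v = i),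
        ∑ v, w u v * s (c u) * s (c v) =
          ∑ j, (∑ v ∈ univ.filter (fun v => c v = j), w u v) * s i * s j := by
      intro u hu
      rw [Finset.mem_filter] at hu
      rw [h1]
      refine Finset.sum_congr rfl fun j _ => ?_
      rw [Finset.sum_mul, Finset.sum_mul]
      refine Finset.sum_congr rfl fun v hv => ?_
      rw [Finset.mem_filter] at hv
      rw [hu.2, hv.2]
    rw [Finset.sum_congr rfl h2, Finset.sum_comm]
    refine Finset.sum_congr rfl fun j _ => ?_
    rw [← Finset.sum_mul, ← Finset.sum_mul]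
    rfl
  have hone : E q univ univ = E w univ univ := by
    have h1 := hfib fun _ => 1
    unfold Q at h1
    unfold E
    simpa using h1.symm
  obtain ⟨s, hs, hQ⟩ := hS _ q hqs (t + 1) univ (by omega) (by
    rw [Finset.card_univ, Fintype.card_fin]; ring)
  have hP : P w univ (-(E q univ univ) / (2 * ((t + 1 : ℕ) : ℝ) - 1)) :=
    ⟨fun v => s (c v), fun v => hs (c v), by rw [hfib]; exact hQ⟩
  obtain ⟨S, hScut⟩ := P_cut hw.toIsSym hP
  refine ⟨S, le_trans ?_ hScut⟩
  rw [hone, hD.tot]
  push_cast
  have ht : (0 : ℝ) ≤ t := Nat.cast_nonneg t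
  have hpos : (0 : ℝ) < 2 * ((t : ℝ) + 1) - 1 := by linarith
  have hlo := hD.lo
  have hν := hD.hν
  have e : (4 * τ - 2 * t - -(4 * τ - 2 * t) / (2 * ((t : ℝ) + 1) - 1)) / 4 - (τ - 1) =
      (τ - (t ^ 2 - t - 1)) / (2 * ((t : ℝ) + 1) - 1) := by
    field_simp
    ring
  have h0 : 0 ≤ (τ - ((t : ℝ) ^ 2 - t - 1)) / (2 * ((t : ℝ) + 1) - 1) :=
    div_nonneg (by linarith) hpos.le
  linarith

end Pool.Agent.JB
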