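import Pool.Agent.JB.Stmts

/-!
Judicious bipartitions (MP_abf15b_co): module GAIN.
-/

set_option autoImplicit false
set_option linter.unusedSectionVars false
set_option linter.unusedVariables false

namespace Pool.Agent.JB

open Finset

theorem gain : RestStmt → Gain1Stmt → Gain2Stmt → GainStmt := by
  intro hRest hG1 hG2 V _ _ w t δ C hD
  have hw := hD.isW
  have hs := hw.toIsSym
  have h1 := hD.one
  have hsm := hD.small
  have hcard : ((2 * t + 1 : ℕ) : ℝ) ≤ (C.card : ℝ) := by exact_mod_cast hD.card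
  push_cast at hcard
  obtain ⟨k, hk⟩ : ∃ k : ℕ, k = ⌈54 * δ⌉₊ := ⟨_, rfl⟩
  have hk1 : 54 * δ ≤ k := by rw [hk]; exact Nat.le_ceil _
  have hk2 : (k : ℝ) ≤ 55 * δ := by
    have := Nat.ceil_lt_add_one (show (0 : ℝ) ≤ 54 * δ by linarith)
    rw [← hk] at this
    linarith
  have key : ∃ S : Finset V, S ⊆ C ∧ P w S (-(S.card : ℝ) - 108 * δ) := by
    rcases hG1 V w t δ C hD k hk2 with ⟨S, hSC, hSc, hP⟩ | ⟨Z, hZC, hZc, hZ⟩
    · refine ⟨S, hSC, P_mono ?_ hP⟩
      rw [hSc]; push_cast; linarith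
    · exact hG2 V w t δ C hD k hk1 hk2 Z hZC hZc hZ
  obtain ⟨S, hSC, hS⟩ := key
  have hR := hRest V w (50 * δ) hw (by linarith) C hD.nn (C \ S) Finset.sdiff_subset
  have hU := P_union hs (Finset.disjoint_sdiff (s := S) (t := C)) hS hR
  rw [Finset.union_sdiff_of_subset hSC] at hU
  refine P_mono ?_ hU
  have e : ((C \ S).card : ℝ) = (C.card : ℝ) - S.card := by
    rw [Finset.card_sdiff_of_subset hSC, Nat.cast_sub (Finset.card_le_card hSC)]
  rw [e]
  linarith

end Pool.Agent.JB
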