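import Pool.Agent.JB.Stmts

/-!
Judicious bipartitions (MP_abf15b_co): module GAIN1.
-/

set_option autoImplicit false
set_option linter.unusedSectionVars false
set_option linter.unusedVariables false

namespace Pool.Agent.JB

open Finset

theorem gain1_nonnbr_card {V : Type} [Fintype V] [DecidableEq V] {w : V → V → ℝ} (hw : IsW w)
    {C N : Finset V} {κ : ℝ} {z : V} (hz : z ∈ C)
    (h : (C.card : ℝ) - 1 - κ ≤ E w {z} C) (hN : N ⊆ C) (hzN : z ∉ N)
    (h0 : ∀ v ∈ N, w z v = 0) : (N.card : ℝ) ≤ κ := by
  have h1 : E w {z} N = 0 := by
    rw [E_singleton_left]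
    exact Finset.sum_eq_zero h0
  have h2 := E_sdiff_right (w := w) {z} hN
  have h3 : E w {z} (C \ N) ≤ ((C \ N).card : ℝ) - 1 :=
    E_single_le_of_mem hw (Finset.mem_sdiff.2 ⟨hz, hzN⟩)
  have h4 : ((C \ N).card : ℝ) = (C.card : ℝ) - N.card := by
    rw [Finset.card_sdiff_of_subset hN, Nat.cast_sub (Finset.card_le_card hN)]
  linarith

theorem gain1 : Gain1Stmt := by
  intro V _ _ w t δ C hD k
  classical
  have hw := hD.isW
  have hs := hw.toIsSym
  have h1 := hD.one
  have hsm := hD.small
  have hcard : ((2 * t + 1 : ℕ) : ℝ) ≤ (C.card : ℝ) := by exact_mod_cast hD.card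
  push_cast at hcard
  induction k with
  | zero =>
    intro _
    left
    exact ⟨∅, by simp, by simp, by simpa using P_empty⟩
  | succ k ih =>
    intro hk
    push_cast at hk
    rcases ih (by linarith) with ⟨S, hSC, hSc, hP⟩ | ⟨Z, hZC, hZc, hZ⟩
    · by_cases hcl : ∀ u ∈ C \ S, ∀ v ∈ C \ S, u ≠ v → w u v = 1
      · right
        exact ⟨S, hSC, by omega, hcl⟩
      · push Not at hcl
        obtain ⟨z, hz, z', hz', hne, hzz⟩ := hcl
        have hzz0 : w z z' = 0 := (hw.zo z z').resolve_right hzz
        have hzz0' : w z' z = 0 := by rw [hs.symm]; exact hzz0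
        left
        have hzC : z ∈ C := (Finset.mem_sdiff.1 hz).1
        have hzC' : z' ∈ C := (Finset.mem_sdiff.1 hz').1
        obtain ⟨R, hR⟩ : ∃ R, R = ((C \ S).erase z).erase z' := ⟨_, rfl⟩
        have hRC : R ⊆ C := by
          intro v hv
          rw [hR] at hv
          exact (Finset.mem_sdiff.1 (Finset.mem_of_mem_erase (Finset.mem_of_mem_erase hv))).1
        have hzR : z ∉ R := by
          rw [hR]; intro hv
          exact absurd rfl (Finset.ne_of_mem_erase (Finset.mem_of_mem_erase hv))
        have hzR' : z' ∉ R := by
          rw [hR]; intro hv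
          exact absurd rfl (Finset.ne_of_mem_erase hv)
        have hN : ((R.filter fun v => w z v = 0).card : ℝ) ≤ 50 * δ :=
          gain1_nonnbr_card hw hzC (hD.nn z hzC) ((Finset.filter_subset _ _).trans hRC)
            (fun h => hzR (Finset.mem_of_mem_filter _ h)) (fun v hv => (Finset.mem_filter.1 hv).2)
        have hN' : ((R.filter fun v => w z' v = 0).card : ℝ) ≤ 50 * δ :=
          gain1_nonnbr_card hw hzC' (hD.nn z' hzC') ((Finset.filter_subset _ _).trans hRC)
            (fun h => hzR' (Finset.mem_of_mem_filter _ h)) (fun v hv => (Finset.mem_filter.1 hv).2)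
        obtain ⟨R', hR'⟩ : ∃ R', R' = R.filter (fun v => w z v = 1 ∧ w z' v = 1) := ⟨_, rfl⟩
        have hcov : R ⊆ R' ∪ ((R.filter fun v => w z v = 0) ∪ (R.filter fun v => w z' v = 0)) := by
          intro v hv
          rw [hR']
          simp only [Finset.mem_union, Finset.mem_filter]
          rcases hw.zo z v with h | h
          · exact Or.inr (Or.inl ⟨hv, h⟩)
          · rcases hw.zo z' v with h' | h'
            · exact Or.inr (Or.inr ⟨hv, h'⟩)
            · exact Or.inl ⟨hv, h, h'⟩
        have hc1 : (R.card : ℝ) ≤ R'.card + (50 * δ + 50 * δ) := by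
          have e1 := (Finset.card_le_card hcov).trans (Finset.card_union_le _ _)
          have e2 := Finset.card_union_le (R.filter fun v => w z v = 0) (R.filter fun v => w z' v = 0)
          have e3 : (R.card : ℝ) ≤ R'.card +
              (((R.filter fun v => w z v = 0).card : ℝ) + (R.filter fun v => w z' v = 0).card) := by
            exact_mod_cast e1.trans (Nat.add_le_add_left e2 _)
          linarith
        have hRcard : (C.card : ℝ) - S.card - 2 ≤ R.card := by
          have e1 : (C \ S).card = C.card - S.card := Finset.card_sdiff_of_subset hSC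
          have e2 : ((C \ S).erase z).card = (C \ S).card - 1 := Finset.card_erase_of_mem hz
          have e3 : R.card = ((C \ S).erase z).card - 1 := by
            rw [hR]
            exact Finset.card_erase_of_mem (Finset.mem_erase.2 ⟨hne.symm, hz'⟩)
          have e4 : C.card ≤ R.card + S.card + 2 := by omega
          have e5 : (C.card : ℝ) ≤ (R.card : ℝ) + S.card + 2 := by exact_mod_cast e4
          linarith
        have hSr : (S.card : ℝ) = 4 * k := by rw [hSc]; push_cast; ring
        have h2R' : 1 < R'.card := by
          have : (1 : ℝ) < R'.card := by linarith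
          exact_mod_cast this
        obtain ⟨p, hp, p', hp', hpp⟩ := Finset.one_lt_card.1 h2R'
        rw [hR'] at hp hp'
        obtain ⟨hpR, hp1, hp2⟩ := Finset.mem_filter.1 hp
        obtain ⟨hpR', hp1', hp2'⟩ := Finset.mem_filter.1 hp'
        have hmemR : ∀ v ∈ R, v ∈ C ∧ v ∉ S ∧ v ≠ z ∧ v ≠ z' := by
          intro v hv
          rw [hR] at hv
          have a1 := Finset.ne_of_mem_erase hv
          have a2 := Finset.mem_of_mem_erase hv
          have a3 := Finset.ne_of_mem_erase a2
          have a4 := Finset.mem_sdiff.1 (Finset.mem_of_mem_erase a2)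
          exact ⟨a4.1, a4.2, a3, a1⟩
        obtain ⟨q1, q2, q3, q4⟩ := hmemR p hpR
        obtain ⟨r1, r2, r3, r4⟩ := hmemR p' hpR'
        have hzS : z ∉ S := (Finset.mem_sdiff.1 hz).2
        have hzS' : z' ∉ S := (Finset.mem_sdiff.1 hz').2
        have hdis : Disjoint ({z, z'} : Finset V) {p, p'} := by
          rw [Finset.disjoint_left]
          intro a ha hb
          simp only [Finset.mem_insert, Finset.mem_singleton] at ha hb
          rcases ha with rfl | rfl <;> rcases hb with rfl | rfl
          · exact q3 rfl
          · exact r3 rfl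
          · exact q4 rfl
          · exact r4 rfl
        have hb := P_block (w := w) hs hdis
        have v1 : E w {z, z'} {z, z'} = 0 := by
          unfold E
          rw [Finset.sum_pair hne, Finset.sum_pair hne, Finset.sum_pair hne, hs.diag, hs.diag,
            hzz0, hzz0']
          ring
        have v2 : E w {p, p'} {p, p'} ≤ 2 := by
          unfold E
          rw [Finset.sum_pair hpp, Finset.sum_pair hpp, Finset.sum_pair hpp, hs.diag, hs.diag]
          have := hw.le_one p p'
          have := hw.le_one p' p
          linarith
        have v3 : E w {z, z'} {p, p'} = 4 := by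
          unfold E
          rw [Finset.sum_pair hne, Finset.sum_pair hpp, Finset.sum_pair hpp, hp1, hp1', hp2, hp2']
          norm_num
        have hb' : P w ({z, z'} ∪ {p, p'}) (-6) := P_mono (by rw [v1, v3]; linarith) hb
        have hdS : Disjoint S ({z, z'} ∪ {p, p'}) := by
          rw [Finset.disjoint_right]
          intro a ha
          simp only [Finset.mem_union, Finset.mem_insert, Finset.mem_singleton] at ha
          rcases ha with (rfl | rfl) | (rfl | rfl) <;> assumption
        refine ⟨S ∪ ({z, z'} ∪ {p, p'}), ?_, ?_, ?_⟩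
        · refine Finset.union_subset hSC ?_
          intro a ha
          simp only [Finset.mem_union, Finset.mem_insert, Finset.mem_singleton] at ha
          rcases ha with (rfl | rfl) | (rfl | rfl) <;> assumption
        · rw [Finset.card_union_of_disjoint hdS, Finset.card_union_of_disjoint hdis,
            Finset.card_pair hne, Finset.card_pair hpp, hSc]
          ring
        · refine P_mono (le_of_eq ?_) (P_union hs hdS hP hb')
          push_cast
          ring
    · right
      exact ⟨Z, hZC, by omega, hZ⟩

end Pool.Agent.JB
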