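import Pool.Agent.JB.Stmts

/-!
Judicious bipartitions (MP_abf15b_co): the gain from a nearly complete set, second half.
-/

set_option autoImplicit false
set_option linter.unusedSectionVars false

namespace Pool.Agent.JB

open Finset

section

variable {V : Type} [Fintype V] [DecidableEq V] {w : V → V → ℝ}

theorem gain2_E_cross {S T : Finset V} (h : ∀ u ∈ S, ∀ v ∈ T, w u v = 1) :
    E w S T = (S.card : ℝ) * T.card := by
  unfold E
  rw [Finset.sum_congr rfl fun u hu => Finset.sum_congr rfl fun v hv => h u hu v hv]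
  simp

theorem gain2_E_self (hw : IsW w) {S : Finset V} (h : ∀ u ∈ S, ∀ v ∈ S, u ≠ v → w u v = 1) :
    E w S S = (S.card : ℝ) * (S.card - 1) := by
  unfold E
  have h1 : ∀ u ∈ S, ∑ v ∈ S, w u v = (S.card : ℝ) - 1 := by
    intro u hu
    rw [← Finset.add_sum_erase S _ hu, hw.diag, zero_add,
      Finset.sum_congr rfl (g := fun _ => (1 : ℝ)) fun v hv =>
        h u hu v (Finset.mem_of_mem_erase hv) (Finset.ne_of_mem_erase hv).symm]
    rw [Finset.sum_const, Finset.card_erase_of_mem hu, nsmul_eq_mul, mul_one,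
      Nat.cast_sub (Finset.card_pos.2 ⟨u, hu⟩)]
    simp
  rw [Finset.sum_congr rfl h1, Finset.sum_const, nsmul_eq_mul]

/-- one greedy step -/
theorem gain2_step {t : ℕ} {δ : ℝ} {C : Finset V} (hD : Dense w t δ C) {k : ℕ}
    (hk' : (k : ℝ) ≤ 55 * δ) {Z : Finset V} (hZC : Z ⊆ C) (hZk : Z.card ≤ 4 * k)
    (hI : ∀ u ∈ C \ Z, ∀ v ∈ C \ Z, u ≠ v → w u v = 1)
    {Z' : Finset V} {z : V} (hz : z ∉ Z') (hZ' : insert z Z' ⊆ Z)
    {S : Finset V} {g : ℕ} (hg : g < k) (h1 : Z' ⊆ S) (h2 : S ⊆ Z' ∪ (C \ Z))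
    (h3 : S.card = 2 * Z'.card + 2 * g) (h4 : P w S (-(S.card : ℝ) - 2 * g))
    (h5 : ∀ x ∈ Z', ∀ u ∈ (C \ Z) \ S, w x u = 1) :
    ∃ (S' : Finset V) (g' : ℕ), (k ≤ g' ∧ S' ⊆ C ∧ P w S' (-(S'.card : ℝ) - 2 * g')) ∨
      (g' < k ∧ insert z Z' ⊆ S' ∧ S' ⊆ insert z Z' ∪ (C \ Z) ∧
        S'.card = 2 * (insert z Z').card + 2 * g' ∧ P w S' (-(S'.card : ℝ) - 2 * g') ∧
        ∀ x ∈ insert z Z', ∀ u ∈ (C \ Z) \ S', w x u = 1) := by
  have hw := hD.isW
  set I := C \ Z with hIdef
  have hzZ : z ∈ Z := hZ' (Finset.mem_insert_self z Z')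
  have hzC : z ∈ C := hZC hzZ
  have hzI : z ∉ I := fun h => (Finset.mem_sdiff.1 h).2 hzZ
  have hzS : z ∉ S := by
    intro h
    rcases Finset.mem_union.1 (h2 h) with h | h
    · exact hz h
    · exact hzI h
  set L := (I \ S).filter fun u => w z u = 0 with hL
  have hLI : L ⊆ I := (Finset.filter_subset _ _).trans Finset.sdiff_subset
  have hLC : L ⊆ C := hLI.trans Finset.sdiff_subset
  have hLS : Disjoint L S := by
    rw [Finset.disjoint_left]
    intro x hx
    exact (Finset.mem_sdiff.1 (Finset.mem_filter.1 hx).1).2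
  have hzL : z ∉ L := fun h => hzI (hLI h)
  have hzLE : E w {z} L = 0 := by
    rw [E_singleton_left]
    exact Finset.sum_eq_zero fun v hv => (Finset.mem_filter.1 hv).2
  have hl : (L.card : ℝ) ≤ 50 * δ := by
    have e1 := E_sdiff_right (w := w) {z} hLC
    have e2 := E_single_le_of_mem hw (Finset.mem_sdiff.2 ⟨hzC, hzL⟩ : z ∈ C \ L)
    have e3 := hD.nn z hzC
    have e4 : ((C \ L).card : ℝ) = (C.card : ℝ) - L.card := by
      rw [Finset.card_sdiff_of_subset hLC, Nat.cast_sub (Finset.card_le_card hLC)]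
    linarith
  have hIc : (I.card : ℝ) = (C.card : ℝ) - Z.card := by
    rw [hIdef, Finset.card_sdiff_of_subset hZC, Nat.cast_sub (Finset.card_le_card hZC)]
  have hCc : (2 * (t : ℝ) + 1) ≤ C.card := by exact_mod_cast hD.card
  have hZc : (Z.card : ℝ) ≤ 4 * k := by exact_mod_cast hZk
  have hZ'c : (Z'.card : ℝ) ≤ Z.card := by
    exact_mod_cast Finset.card_le_card ((Finset.subset_insert z Z').trans hZ')
  have hSc : (S.card : ℝ) = 2 * Z'.card + 2 * g := by exact_mod_cast h3
  have hgk : (g : ℝ) ≤ k := by exact_mod_cast hg.le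
  have hδt := hD.small
  have hδ1 := hD.one
  have hIS : (I.card : ℝ) - S.card ≤ (I \ S).card := by
    have := Finset.le_card_sdiff S I
    have h' : I.card ≤ (I \ S).card + S.card := by omega
    have h'' : (I.card : ℝ) ≤ (I \ S).card + S.card := by exact_mod_cast h'
    linarith
  have hLsub : L ⊆ I \ S := Finset.filter_subset _ _
  have hbigR : (2 * (L.card : ℝ) + 1) ≤ (I \ S).card := by linarith
  have hbig : 2 * L.card + 1 ≤ (I \ S).card := by exact_mod_cast hbigR
  have hcL : ((I \ S) \ L).card = (I \ S).card - L.card := Finset.card_sdiff_of_subset hLsub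
  obtain ⟨N, hN, hNc⟩ := Finset.exists_subset_card_eq (s := (I \ S) \ L) (n := L.card + 1)
    (by rw [hcL]; omega)
  have hNI : N ⊆ I := hN.trans (Finset.sdiff_subset.trans Finset.sdiff_subset)
  have hNS : Disjoint N S := by
    rw [Finset.disjoint_left]
    intro x hx
    exact (Finset.mem_sdiff.1 (Finset.mem_sdiff.1 (hN hx)).1).2
  have hNL : Disjoint N L := by
    rw [Finset.disjoint_left]
    intro x hx
    exact (Finset.mem_sdiff.1 (hN hx)).2
  have hzN : z ∉ N := fun h => hzI (hNI h)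
  have hzNE : ∀ u ∈ ({z} : Finset V), ∀ v ∈ N, w u v = 1 := by
    intro u hu v hv
    rw [Finset.mem_singleton] at hu
    subst hu
    rcases hw.zo u v with h | h
    · exfalso
      refine Finset.disjoint_left.1 hNL hv ?_
      rw [hL, Finset.mem_filter]
      exact ⟨(Finset.mem_sdiff.1 (hN hv)).1, h⟩
    · exact h
  -- the block
  have hdis : Disjoint (insert z L) N := by
    rw [Finset.disjoint_insert_left]
    exact ⟨hzN, hNL.symm⟩
  have hblock := P_block hw.toIsSym hdis
  have e1 : E w (insert z L) (insert z L) = (L.card : ℝ) * (L.card - 1) := by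
    rw [E_insert_insert hw.toIsSym hzL, hzLE, gain2_E_self hw]
    · ring
    · intro u hu v hv huv
      exact hI u (hLI hu) v (hLI hv) huv
  have e2 : E w N N = (N.card : ℝ) * (N.card - 1) := by
    refine gain2_E_self hw ?_
    intro u hu v hv huv
    exact hI u (hNI hu) v (hNI hv) huv
  have e3 : E w (insert z L) N = N.card + (L.card : ℝ) * N.card := by
    rw [E_insert_left hzL, gain2_E_cross hzNE, gain2_E_cross (S := L)]
    · simp
    · intro u hu v hv
      exact hI u (hLI hu) v (hNI hv) fun h =>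
        Finset.disjoint_left.1 hNL hv (h ▸ hu)
  have hNc' : (N.card : ℝ) = L.card + 1 := by exact_mod_cast hNc
  rw [e1, e2, e3, hNc'] at hblock
  have hdisS : Disjoint S (insert z L ∪ N) := by
    rw [Finset.disjoint_union_right, Finset.disjoint_insert_right]
    exact ⟨⟨hzS, hLS.symm⟩, hNS.symm⟩
  have hPS := P_union hw.toIsSym hdisS h4 hblock
  set S' := S ∪ (insert z L ∪ N) with hS'
  have hS'c : S'.card = S.card + (2 * L.card + 2) := by
    rw [hS', Finset.card_union_of_disjoint hdisS, Finset.card_union_of_disjoint hdis,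
      Finset.card_insert_of_notMem hzL, hNc]
    ring
  have hPS' : P w S' (-(S'.card : ℝ) - 2 * ((g + L.card : ℕ) : ℝ)) := by
    refine P_mono ?_ hPS
    rw [hS'c]
    push_cast
    nlinarith
  have hS'sub : S' ⊆ insert z Z' ∪ I := by
    rw [hS']
    refine Finset.union_subset ?_ (Finset.union_subset ?_ ?_)
    · exact h2.trans (Finset.union_subset_union (Finset.subset_insert _ _) subset_rfl)
    · rw [Finset.insert_subset_iff]
      exact ⟨Finset.mem_union_left _ (Finset.mem_insert_self _ _),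
        hLI.trans Finset.subset_union_right⟩
    · exact hNI.trans Finset.subset_union_right
  have hS'C : S' ⊆ C :=
    hS'sub.trans (Finset.union_subset (hZ'.trans hZC) Finset.sdiff_subset)
  refine ⟨S', g + L.card, ?_⟩
  rcases Nat.lt_or_ge (g + L.card) k with hlt | hge
  · right
    refine ⟨hlt, ?_, hS'sub, ?_, hPS', ?_⟩
    · rw [Finset.insert_subset_iff]
      refine ⟨?_, h1.trans Finset.subset_union_left⟩
      exact Finset.mem_union_right _ (Finset.mem_union_left _ (Finset.mem_insert_self _ _))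
    · rw [hS'c, h3, Finset.card_insert_of_notMem hz]; ring
    · intro x hx u hu
      rw [Finset.mem_sdiff] at hu
      have huS : u ∉ S := fun h => hu.2 (Finset.mem_union_left _ h)
      rcases Finset.mem_insert.1 hx with rfl | hx
      · rcases hw.zo x u with h | h
        · exfalso
          apply hu.2
          refine Finset.mem_union_right _ (Finset.mem_union_left _ (Finset.mem_insert_of_mem ?_))
          rw [hL, Finset.mem_filter, Finset.mem_sdiff]
          exact ⟨⟨hu.1, huS⟩, h⟩
        · exact h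
      · exact h5 x hx u (Finset.mem_sdiff.2 ⟨hu.1, huS⟩)
  · left
    exact ⟨hge, hS'C, hPS'⟩

end

theorem gain2 : Gain2Stmt := by
  intro V _ _ w t δ C hD k hk hk' Z hZC hZk hI
  have hw := hD.isW
  have key : ∀ Z' : Finset V, Z' ⊆ Z →
      ∃ (S : Finset V) (g : ℕ), (k ≤ g ∧ S ⊆ C ∧ P w S (-(S.card : ℝ) - 2 * g)) ∨
        (g < k ∧ Z' ⊆ S ∧ S ⊆ Z' ∪ (C \ Z) ∧ S.card = 2 * Z'.card + 2 * g ∧
          P w S (-(S.card : ℝ) - 2 * g) ∧ ∀ x ∈ Z', ∀ u ∈ (C \ Z) \ S, w x u = 1) := by
    intro Z'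
    induction Z' using Finset.induction_on with
    | empty =>
      intro _
      refine ⟨∅, 0, ?_⟩
      rcases Nat.eq_zero_or_pos k with h0 | h0
      · left
        refine ⟨by omega, Finset.empty_subset _, ?_⟩
        refine P_mono ?_ P_empty
        simp
      · right
        refine ⟨h0, subset_rfl, Finset.empty_subset _, by simp, ?_, ?_⟩
        · refine P_mono ?_ P_empty
          simp
        · intro x hx
          exact absurd hx (Finset.notMem_empty x)
    | insert z Z' hz ih =>
      intro hsub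
      obtain ⟨S, g, h | ⟨h0, h1, h2, h3, h4, h5⟩⟩ := ih ((Finset.subset_insert _ _).trans hsub)
      · exact ⟨S, g, Or.inl h⟩
      · exact gain2_step hD hk' hZC hZk hI hz hsub h0 h1 h2 h3 h4 h5
  obtain ⟨S, g, ⟨h0, h1, h2⟩ | ⟨h0, h1, h2, h3, h4, h5⟩⟩ := key Z subset_rfl
  · refine ⟨S, h1, P_mono ?_ h2⟩
    have : (k : ℝ) ≤ g := by exact_mod_cast h0
    linarith
  · have hSC : S ⊆ C := h2.trans (Finset.union_subset hZC Finset.sdiff_subset)
    have hCSI : C \ S ⊆ C \ Z := Finset.sdiff_subset_sdiff subset_rfl h1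
    have hadj : ∀ u ∈ C \ S, ∀ v ∈ C, u ≠ v → w u v = 1 := by
      intro u hu v hv huv
      by_cases hvZ : v ∈ Z
      · rw [hw.symm]
        exact h5 v hvZ u (Finset.mem_sdiff.2 ⟨hCSI hu, (Finset.mem_sdiff.1 hu).2⟩)
      · exact hI u (hCSI hu) v (Finset.mem_sdiff.2 ⟨hv, hvZ⟩) huv
    have hdis : Disjoint S (C \ S) := Finset.disjoint_sdiff
    have hun : S ∪ (C \ S) = C := Finset.union_sdiff_of_subset hSC
    have hEC : E w C C = E w S S + E w (C \ S) (C \ S) + 2 * E w S (C \ S) := by
      rw [← E_union_union hw.toIsSym hdis, hun]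
    have hE1 : E w (C \ S) (C \ S) = ((C \ S).card : ℝ) * ((C \ S).card - 1) :=
      gain2_E_self hw fun u hu v hv huv => hadj u hu v (Finset.mem_sdiff.1 hv).1 huv
    have hE2 : E w S (C \ S) = (S.card : ℝ) * (C \ S).card :=
      gain2_E_cross fun u hu v hv => by
        rw [hw.symm]
        exact hadj v hv u (hSC hu) fun h => (Finset.mem_sdiff.1 hv).2 (h ▸ hu)
    have hCc : ((C \ S).card : ℝ) = (C.card : ℝ) - S.card := by
      rw [Finset.card_sdiff_of_subset hSC, Nat.cast_sub (Finset.card_le_card hSC)]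
    have hmiss := hD.miss
    have hSmiss : 108 * δ ≤ (S.card : ℝ) * (S.card - 1) - E w S S := by
      rw [hEC, hE1, hE2, hCc] at hmiss
      nlinarith
    have hSc : (S.card : ℝ) = 2 * Z.card + 2 * g := by exact_mod_cast h3
    have hZc : (Z.card : ℝ) ≤ 4 * k := by exact_mod_cast hZk
    have hgk : (g : ℝ) ≤ k := by exact_mod_cast h0.le
    have hCc2 : (2 * (t : ℝ) + 1) ≤ C.card := by exact_mod_cast hD.card
    have hδt := hD.small
    have hδ1 := hD.one
    have hbigR : (S.card : ℝ) ≤ (C \ S).card := by rw [hCc]; linarith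
    have hbig : S.card ≤ (C \ S).card := by exact_mod_cast hbigR
    obtain ⟨N, hN, hNc⟩ := Finset.exists_subset_card_eq (s := C \ S) (n := S.card) hbig
    have hdSN : Disjoint S N := Finset.disjoint_of_subset_right hN hdis
    have hblock := P_block hw.toIsSym hdSN
    have f1 : E w N N = (N.card : ℝ) * (N.card - 1) :=
      gain2_E_self hw fun u hu v hv huv =>
        hadj u (hN hu) v (Finset.mem_sdiff.1 (hN hv)).1 huv
    have f2 : E w S N = (S.card : ℝ) * N.card :=
      gain2_E_cross fun u hu v hv => by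
        rw [hw.symm]
        exact hadj v (hN hv) u (hSC hu) fun h => (Finset.mem_sdiff.1 (hN hv)).2 (h ▸ hu)
    have hNc' : (N.card : ℝ) = S.card := by exact_mod_cast hNc
    refine ⟨S ∪ N, Finset.union_subset hSC (hN.trans Finset.sdiff_subset), P_mono ?_ hblock⟩
    have hcc : ((S ∪ N).card : ℝ) = S.card + N.card := by
      rw [Finset.card_union_of_disjoint hdSN]; push_cast; ring
    rw [f1, f2, hcc, hNc']
    nlinarith

end Pool.Agent.JB
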