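import Pool.Agent.JB.Stmts

/-!
Judicious bipartitions (MP_abf15b_co): module L1B, second half of the structure lemma.
-/

set_option autoImplicit false
set_option linter.unusedSectionVars false
set_option linter.unusedVariables false

namespace Pool.Agent.JB

open Finset

theorem l1b : L1bStmt := by
  intro V _ _ w t τ ν δ hD A L
  have hw := hD.isW
  have hs := hw.toIsSym
  have ht : (100 : ℝ) ≤ t := by exact_mod_cast hD.ht
  have hlo := hD.lo
  have hhi := hD.hi
  have hν := hD.hν
  have hδ := hD.hδ
  have hδν := hD.hδν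
  have htδ : 1000 * δ ≤ t := by linarith
  have hz := L.z_lo
  have hAB : E w A Aᶜ = τ + yy w τ A := by unfold yy; ring
  have hAA : E w A A = τ + 2 * zz w τ A := by unfold zz; ring
  have hBB : E w Aᶜ Aᶜ = τ - 2 * t - 2 * yy w τ A - 2 * zz w τ A := by
    have h1 := E_total hs A
    rw [hD.tot, hAA, hAB] at h1
    linarith
  have hes : ∀ S : Finset V, ee w A S = ∑ v ∈ S, ee w A {v} := by
    intro S; unfold ee
    rw [Finset.sum_sub_distrib, ← E_eq_sum_left, ← E_eq_sum_left]
  have heA := L.e_sum
  have e1 : 0 ≤ ee w A A := by rw [hes]; exact Finset.sum_nonneg L.e_nonneg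
  have heS : ∀ S : Finset V, S ⊆ A → ee w A S ≤ yy w τ A - 2 * zz w τ A := by
    intro S hS
    rw [← heA, hes S, hes A]
    exact Finset.sum_le_sum_of_subset_of_nonneg hS (fun u hu _ => L.e_nonneg u hu)
  have hBn := E_nonneg hw Aᶜ Aᶜ
  rw [hBB] at hBn
  have hz6 : 6 * zz w τ A ≤ (t : ℝ) ^ 2 - t := by linarith
  have hbig : big w t δ A ⊆ A := by unfold big; exact Finset.filter_subset _ _
  have hbd : ∀ v ∈ big w t δ A, (t : ℝ) - 4 * δ < E w {v} A := by
    intro v hv; unfold big at hv; exact (Finset.mem_filter.1 hv).2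
  have hcard : (t : ℝ) + 1 ≤ (big w t δ A).card := by exact_mod_cast L.card
  -- Step 1
  have step1 : zz w τ A ≤ t - 5 * δ := by
    by_contra hc
    push Not at hc
    classical
    set D := (big w t δ A).filter fun v => E w {v} A ≤ 2 * t with hDdef
    have hDsub : D ⊆ big w t δ A := Finset.filter_subset _ _
    have hDA : D ⊆ A := hDsub.trans hbig
    have hDcard : (t : ℝ) / 3 ≤ D.card := by
      have h1 : (D.card : ℝ) * (t - 4 * δ) ≤ E w D A := by
        rw [E_eq_sum_left, ← nsmul_eq_mul, ← Finset.sum_const]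
        exact Finset.sum_le_sum fun v hv => (hbd v (hDsub hv)).le
      have h2 : ((big w t δ A \ D).card : ℝ) * (2 * t) ≤ E w (big w t δ A \ D) A := by
        rw [E_eq_sum_left, ← nsmul_eq_mul, ← Finset.sum_const]
        refine Finset.sum_le_sum fun v hv => ?_
        rw [Finset.mem_sdiff] at hv
        by_contra hcc
        push Not at hcc
        exact hv.2 (Finset.mem_filter.2 ⟨hv.1, hcc.le⟩)
      have h3 : E w (big w t δ A \ D) A = E w (big w t δ A) A - E w D A := E_sdiff_left hDsub A
      have h4 : E w (big w t δ A) A ≤ E w A A := E_mono_left hw hbig A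
      have h5 : ((big w t δ A \ D).card : ℝ) = (big w t δ A).card - D.card := by
        rw [Finset.card_sdiff_of_subset hDsub, Nat.cast_sub (Finset.card_le_card hDsub)]
      rw [h5] at h2
      -- (n_b - n_D) 2t + n_D (t - 4δ) ≤ τ + 2 z
      have h6 : ((big w t δ A).card - D.card : ℝ) * (2 * t) + D.card * (t - 4 * δ) ≤
          (t : ℝ) ^ 2 + t + ((t : ℝ) ^ 2 - t) / 3 := by linarith
      have h7 : ((t : ℝ) + 1) * (2 * t) ≤ (big w t δ A).card * (2 * t) :=
        mul_le_mul_of_nonneg_right hcard (by linarith)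
      have h8 : (2 * (t : ℝ) ^ 2 + 4 * t) / 3 ≤ D.card * (t + 4 * δ) := by nlinarith
      by_contra hcc
      push Not at hcc
      have h9 : (D.card : ℝ) * (t + 4 * δ) ≤ (t / 3) * (t + 4 * δ) :=
        mul_le_mul_of_nonneg_right hcc.le (by linarith)
      nlinarith
    -- S0
    obtain ⟨S0, hS0, hS0c⟩ := Finset.exists_subset_card_eq (s := D) (n := t / 3) (by
      have h1 : ((t / 3 : ℕ) : ℝ) ≤ (t : ℝ) / 3 := Nat.cast_div_le
      exact_mod_cast h1.trans hDcard)
    have hfl1 : ((t / 3 : ℕ) : ℝ) ≤ (t : ℝ) / 3 := Nat.cast_div_le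
    have hfl2 : (t : ℝ) / 3 - 1 ≤ ((t / 3 : ℕ) : ℝ) := by
      have h1 : t ≤ 3 * (t / 3) + 2 := by omega
      have h2 : (t : ℝ) ≤ 3 * ((t / 3 : ℕ) : ℝ) + 2 := by exact_mod_cast h1
      linarith
    have ggl : ∀ S : Finset V, S ⊆ S0 →
        (S.card : ℝ) * (5 * t / 6 - 4 * δ) ≤ gg w A S := by
      intro S hS
      have h1 : (S.card : ℝ) * (t - 4 * δ) ≤ E w S A := by
        rw [E_eq_sum_left, ← nsmul_eq_mul, ← Finset.sum_const]
        exact Finset.sum_le_sum fun v hv => (hbd v (hDsub (hS0 (hS hv)))).le
      have h2 := E_le_card_mul hw S S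
      have h3 : (S.card : ℝ) ≤ t / 3 := by
        have : (S.card : ℝ) ≤ S0.card := by exact_mod_cast Finset.card_le_card hS
        rw [hS0c] at this
        linarith
      have h4 : (0 : ℝ) ≤ S.card := Nat.cast_nonneg _
      unfold gg
      nlinarith [mul_nonneg h4 (sub_nonneg.2 h3)]
    have key : ∀ S : Finset V, S ⊆ S0 → gg w A S < zz w τ A + δ := by
      intro S
      induction S using Finset.induction_on with
      | empty => intro _; simp only [gg, E_empty_left]; linarith
      | insert v S hv ih =>
        intro hS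
        have hSs : S ⊆ S0 := (Finset.subset_insert v S).trans hS
        have hvD : v ∈ D := hS0 (hS (Finset.mem_insert_self v S))
        have hvA : v ∈ A := hDA hvD
        have hSA : S ⊆ A := hSs.trans (hS0.trans hDA)
        have ih' := ih hSs
        rcases L.dich (insert v S) (Finset.insert_subset hvA hSA) with h | h
        · exact h
        · exfalso
          have h1 : gg w A (insert v S) = gg w A S + E w {v} A - E w {v} S := by
            unfold gg; rw [E_insert_left hv, E_insert_insert hs hv]; ring
          have h2 := E_insert_insert hs hv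
          have h3 := heS _ (Finset.insert_subset hvA hSA)
          have h4 : E w {v} A ≤ 2 * t := (Finset.mem_filter.1 hvD).2
          have h5 := E_self_le hw S
          have h6 := E_single_le hw v S
          have h7 := ggl S hSs
          set j : ℝ := (S.card : ℝ) with hj
          have hj0 : 0 ≤ j := Nat.cast_nonneg _
          have hj3 : j ≤ t / 3 := by
            have : (S.card : ℝ) ≤ S0.card := by exact_mod_cast Finset.card_le_card hSs
            rw [hS0c] at this
            linarith
          -- 2 z < t + 2 δ + j^2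
          have h8 : 2 * zz w τ A < t + 2 * δ + j * j := by linarith
          -- j (5t/6 - 4δ) < z + δ
          have h9 : j * (5 * t / 6 - 4 * δ) < zz w τ A + δ := by linarith
          have h10 : j * j ≤ j * (t / 3) := mul_le_mul_of_nonneg_left hj3 hj0
          -- j t/3 ≤ 0.403 (z + δ)
          have h11 : j * (t / 3) ≤ 0.403 * (zz w τ A + δ) := by
            have : j * (t / 3) ≤ 0.403 * (j * (5 * t / 6 - 4 * δ)) := by
              nlinarith [mul_nonneg hj0 (by linarith : (0:ℝ) ≤ t - 1000 * δ),
                mul_nonneg hj0 (by linarith : (0:ℝ) ≤ (t:ℝ))]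
            linarith
          linarith
    have h1 := key S0 (subset_refl _)
    have h2 := ggl S0 (subset_refl _)
    rw [hS0c] at h2
    have h3 : ((t : ℝ) / 3 - 1) * (5 * t / 6 - 4 * δ) ≤
        ((t / 3 : ℕ) : ℝ) * (5 * t / 6 - 4 * δ) :=
      mul_le_mul_of_nonneg_right hfl2 (by linarith)
    nlinarith
  -- Step 2
  have dB : ∀ v ∈ big w t δ A, t + yy w τ A + zz w τ A - δ < E w {v} Aᶜ := by
    intro v hv
    rcases L.dich {v} (Finset.singleton_subset_iff.2 (hbig hv)) with h | h
    · exfalso
      have h1 := hbd v hv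
      unfold gg at h
      rw [E_self hs] at h
      linarith
    · unfold gg ee at h
      rw [E_self hs] at h
      linarith
  -- Step 3
  have yz : yy w τ A + zz w τ A < δ := by
    by_contra hc
    push Not at hc
    have h2 : ((big w t δ A).card : ℝ) * (t + yy w τ A + zz w τ A - δ) ≤ τ + yy w τ A := by
      have h3 : E w (big w t δ A) Aᶜ ≤ E w A Aᶜ := E_mono_left hw hbig _
      have h5 : ((big w t δ A).card : ℝ) * (t + yy w τ A + zz w τ A - δ) ≤
          E w (big w t δ A) Aᶜ := by
        rw [E_eq_sum_left, ← nsmul_eq_mul, ← Finset.sum_const]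
        exact Finset.sum_le_sum fun v hv => (dB v hv).le
      linarith
    have h3 : ((t : ℝ) + 1) * (t + yy w τ A + zz w τ A - δ) ≤ τ + yy w τ A :=
      (mul_le_mul_of_nonneg_right hcard (by linarith)).trans h2
    have h4 : 0 ≤ (t : ℝ) * (yy w τ A + zz w τ A - δ) :=
      mul_nonneg (by linarith) (by linarith)
    nlinarith
  exact ⟨L, yz, dB⟩

end Pool.Agent.JB
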