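import Pool.Agent.JB.Stmts

/-!
Judicious bipartitions (MP_abf15b_co): module LOW.
-/

set_option autoImplicit false
set_option linter.unusedSectionVars false
set_option linter.unusedVariables false

namespace Pool.Agent.JB

open Finset

theorem low_count {n : ℕ} (G : SimpleGraph (Fin n)) [DecidableRel G.Adj] [Fintype G.edgeSet]
    (S : Finset (Fin n)) [DecidablePred fun e : Sym2 (Fin n) => ∀ v ∈ e, v ∈ S] :
    (∑ u ∈ S, ∑ v ∈ S, (if G.Adj u v then (1 : ℝ) else 0)) =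
      2 * ((G.edgeFinset.filter (fun e => ∀ v ∈ e, v ∈ S)).card : ℝ) := by
  have h1 : (∑ u ∈ S, ∑ v ∈ S, (if G.Adj u v then (1 : ℝ) else 0)) =
      (((S ×ˢ S).filter fun p => G.Adj p.1 p.2).card : ℝ) := by
    rw [← Finset.sum_product' (s := S) (t := S) (f := fun u v => if G.Adj u v then (1 : ℝ) else 0),
      Finset.card_filter]
    push_cast
    rfl
  rw [h1]
  have h2 : ((S ×ˢ S).filter fun p => G.Adj p.1 p.2).card =
      ∑ e ∈ G.edgeFinset.filter (fun e => ∀ v ∈ e, v ∈ S),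
        (((S ×ˢ S).filter fun p => G.Adj p.1 p.2).filter fun p => s(p.1, p.2) = e).card := by
    refine Finset.card_eq_sum_card_fiberwise ?_
    intro p hp
    have hp' := Finset.mem_filter.1 (Finset.mem_coe.1 hp)
    have hp2 := Finset.mem_product.1 hp'.1
    refine Finset.mem_coe.2 (Finset.mem_filter.2 ⟨?_, ?_⟩)
    · rw [SimpleGraph.mem_edgeFinset, SimpleGraph.mem_edgeSet]
      exact hp'.2
    · intro v hv
      rcases Sym2.mem_iff.1 hv with rfl | rfl
      · exact hp2.1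
      · exact hp2.2
  have h3 : ∀ e ∈ G.edgeFinset.filter (fun e => ∀ v ∈ e, v ∈ S),
      (((S ×ˢ S).filter fun p => G.Adj p.1 p.2).filter fun p => s(p.1, p.2) = e).card = 2 := by
    intro e he
    induction e using Sym2.ind with
    | _ a b =>
      obtain ⟨he1, he2⟩ := Finset.mem_filter.1 he
      rw [SimpleGraph.mem_edgeFinset, SimpleGraph.mem_edgeSet] at he1
      have hab : a ≠ b := he1.ne
      have ha : a ∈ S := he2 a (Sym2.mem_mk_left a b)
      have hb : b ∈ S := he2 b (Sym2.mem_mk_right a b)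
      have : (((S ×ˢ S).filter fun p => G.Adj p.1 p.2).filter fun p => s(p.1, p.2) = s(a, b)) =
          {(a, b), (b, a)} := by
        ext ⟨x, y⟩
        simp only [Finset.mem_filter, Finset.mem_product, Finset.mem_insert,
          Finset.mem_singleton, Prod.mk.injEq, Sym2.eq_iff]
        constructor
        · rintro ⟨_, h⟩
          exact h
        · rintro (⟨rfl, rfl⟩ | ⟨rfl, rfl⟩)
          · exact ⟨⟨⟨ha, hb⟩, he1⟩, Or.inl ⟨rfl, rfl⟩⟩
          · exact ⟨⟨⟨hb, ha⟩, he1.symm⟩, Or.inr ⟨rfl, rfl⟩⟩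
      rw [this]
      refine Finset.card_pair ?_
      intro h
      exact hab (Prod.mk.inj h).1
  rw [h2, Finset.sum_congr rfl h3, Finset.sum_const]
  simp [mul_comm]

theorem low_dT_le (m j : ℕ) : dT m ≤ |(m : ℝ) - (j : ℝ) * (2 * j + 1)| :=
  ciInf_le ⟨0, by rintro _ ⟨i, rfl⟩; exact abs_nonneg _⟩ j

theorem low_dT_nonneg (m : ℕ) : 0 ≤ dT m :=
  le_ciInf fun _ => abs_nonneg _

theorem low : MainStmt → LowStmt := by
  intro hM m hm
  classical
  -- the least `t` with `m < t (2 t + 1)`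
  have hex : ∃ t : ℕ, m < t * (2 * t + 1) := ⟨m + 1, by nlinarith⟩
  obtain ⟨t, ht1, ht2⟩ : ∃ t : ℕ, m < t * (2 * t + 1) ∧ ∀ s < t, ¬ m < s * (2 * s + 1) :=
    ⟨Nat.find hex, Nat.find_spec hex, fun s hs => Nat.find_min hex hs⟩
  have ht100 : 100 ≤ t := by
    by_contra h
    push Not at h
    have h' : t ≤ 99 := by omega
    nlinarith
  obtain ⟨r, rfl⟩ : ∃ r, t = r + 1 := ⟨t - 1, by omega⟩
  have ht3 : r * (2 * r + 1) ≤ m := by
    have := ht2 r (by omega)
    omega
  have hlo : (r : ℝ) * (2 * r + 1) ≤ m := by exact_mod_cast ht3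
  have hhi : (m : ℝ) + 1 ≤ ((r : ℝ) + 1) * (2 * (r + 1) + 1) := by exact_mod_cast ht1
  have hr : (99 : ℝ) ≤ r := by
    have : 99 ≤ r := by omega
    exact_mod_cast this
  -- parameters
  set T : ℝ := (r : ℝ) + 1 with hT
  obtain ⟨τ, hτ⟩ : ∃ τ : ℝ, τ = ((m : ℝ) + T) / 2 := ⟨_, rfl⟩
  obtain ⟨ν, hν⟩ : ∃ ν : ℝ, ν = T - |(m : ℝ) - T * (2 * T - 1)| / 2 := ⟨_, rfl⟩
  have hd1 := low_dT_le m r
  have hd2 := low_dT_le m (r + 1)
  push_cast at hd2
  rw [← hT] at hd2
  have hd0 := low_dT_nonneg m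
  have hdν : dT m ≤ 2 * ν := by
    rw [hν]
    rcases le_total 0 ((m : ℝ) - T * (2 * T - 1)) with h | h
    · rw [abs_of_nonneg h]
      rw [abs_of_nonpos (by nlinarith)] at hd2
      nlinarith
    · rw [abs_of_nonpos h]
      rw [abs_of_nonneg (by linarith)] at hd1
      nlinarith
  obtain ⟨δ, hδ0, hδ1, hδ2, hδ3⟩ : ∃ δ : ℝ, 0 ≤ δ ∧ (δ = 0 ∨ 1 ≤ δ) ∧ 2000 * δ ≤ dT m ∧
      dT m / 2000 - 1 ≤ δ := by
    by_cases h : 1 ≤ dT m / 2000
    · exact ⟨dT m / 2000, by linarith, Or.inr h, by linarith, by linarith⟩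
    · exact ⟨0, le_rfl, Or.inl rfl, by linarith, by linarith⟩
  -- the bound on `gG`
  have hτ2 : 0 ≤ τ / 2 - δ := by
    have : 1000 * δ ≤ ν := by linarith
    have h2 : ν ≤ T := by
      rw [hν]; have := abs_nonneg ((m : ℝ) - T * (2 * T - 1)); linarith
    have h3 : T ≤ (m : ℝ) := by nlinarith
    rw [hτ]; linarith
  have hG : ∀ (n : ℕ) (G : SimpleGraph (Fin n)), G.edgeFinset.card = m →
      (gG G : ℝ) ≤ τ / 2 - δ := by
    intro n G hGm
    have hD : Data (fun u v => if G.Adj u v then (1 : ℝ) else 0) (r + 1) τ ν δ := by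
      refine ⟨⟨⟨?_, ?_⟩, ?_⟩, ht100, ?_, ?_, ?_, by linarith, hδ0, by linarith⟩
      · intro u v
        simp only [G.adj_comm u v]
      · intro v
        simp
      · intro u v
        by_cases h : G.Adj u v
        · right; simp [h]
        · left; simp [h]
      · have := low_count G Finset.univ
        have e : (G.edgeFinset.filter (fun e => ∀ v ∈ e, v ∈ (Finset.univ : Finset (Fin n)))) =
            G.edgeFinset := Finset.filter_true_of_mem (fun _ _ _ _ => Finset.mem_univ _)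
        rw [e, hGm] at this
        unfold E
        rw [this, hτ]
        push_cast
        rw [hT]
        ring
      · push_cast
        rw [← hT, hν, hτ]
        rcases abs_cases ((m : ℝ) - T * (2 * T - 1)) with ⟨h, _⟩ | ⟨h, _⟩ <;> rw [h] <;> nlinarith
      · push_cast
        rw [← hT, hν, hτ]
        rcases abs_cases ((m : ℝ) - T * (2 * T - 1)) with ⟨h, _⟩ | ⟨h, _⟩ <;> rw [h] <;> nlinarith
    obtain ⟨S, hS1, hS2⟩ := hM (Fin n) _ (r + 1) τ ν δ hD hδ1
    have e1 : E (fun u v => if G.Adj u v then (1 : ℝ) else 0) S S =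
        2 * ((G.edgeFinset.filter (fun e => ∀ v ∈ e, v ∈ S)).card : ℝ) := low_count G S
    have e2 : E (fun u v => if G.Adj u v then (1 : ℝ) else 0) Sᶜ Sᶜ =
        2 * ((G.edgeFinset.filter (fun e => ∀ v ∈ e, v ∉ S)).card : ℝ) := by
      have h := low_count G Sᶜ
      have e : (G.edgeFinset.filter (fun e => ∀ v ∈ e, v ∈ Sᶜ)) =
          (G.edgeFinset.filter (fun e => ∀ v ∈ e, v ∉ S)) :=
        Finset.filter_congr fun e _ => by simp only [Finset.mem_compl]
      rw [e] at h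
      exact h
    rw [e1] at hS1
    rw [e2] at hS2
    have hle : gG G ≤ max (G.edgeFinset.filter (fun e => ∀ v ∈ e, v ∈ S)).card
        (G.edgeFinset.filter (fun e => ∀ v ∈ e, v ∉ S)).card := by
      unfold gG
      exact Nat.sInf_le ⟨S, rfl⟩
    have hle' : (gG G : ℝ) ≤ max ((G.edgeFinset.filter (fun e => ∀ v ∈ e, v ∈ S)).card : ℝ)
        ((G.edgeFinset.filter (fun e => ∀ v ∈ e, v ∉ S)).card : ℝ) := by exact_mod_cast hle
    refine hle'.trans (max_le (by linarith) (by linarith))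
  have hg : (g m : ℝ) ≤ τ / 2 - δ := by
    have h1 : g m ≤ ⌊τ / 2 - δ⌋₊ := by
      unfold g
      refine csSup_le' ?_
      rintro k ⟨n, G, hGm, rfl⟩
      exact Nat.le_floor (hG n G hGm)
    calc (g m : ℝ) ≤ (⌊τ / 2 - δ⌋₊ : ℝ) := by exact_mod_cast h1
      _ ≤ _ := Nat.floor_le hτ2
  have hsq : (r : ℝ) / 4 ≤ Real.sqrt ((m : ℝ) / 32) := by
    refine Real.le_sqrt_of_sq_le ?_
    nlinarith
  unfold h
  rw [hτ, hT] at hg
  linarith

end Pool.Agent.JB
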