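import Pool.Agent.JB.Stmts

/-!
Judicious bipartitions (MP_abf15b_co): module MAIN.
-/

set_option autoImplicit false
set_option linter.unusedSectionVars false
set_option linter.unusedVariables false

namespace Pool.Agent.JB

open Finset

theorem exists_maxCut {V : Type} [Fintype V] [DecidableEq V] (w : V → V → ℝ) (hs : IsSym w) :
    ∃ A : Finset V, MaxCut w A := by
  obtain ⟨A, -, hA⟩ := Finset.exists_max_image (univ : Finset (Finset V))
    (fun S => E w S Sᶜ) ⟨∅, Finset.mem_univ _⟩
  have hA' : ∀ S : Finset V, E w S Sᶜ ≤ E w A Aᶜ := fun S => hA S (Finset.mem_univ _)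
  by_cases h : E w Aᶜ Aᶜ ≤ E w A A
  · exact ⟨A, hA', h⟩
  · push Not at h
    refine ⟨Aᶜ, fun S => ?_, ?_⟩
    · rw [compl_compl, E_comm hs Aᶜ A]; exact hA' S
    · rw [compl_compl]; exact h.le

theorem main (hE : EdwStmt) (hA : L1aStmt) (hB : L1bStmt) (hC : CoreStmt) (hG : GainStmt) :
    MainStmt := by
  intro V _ _ w t τ ν δ hD hδ
  by_contra hcon
  have hF : Fail w τ δ := by
    intro S
    by_contra h
    push Not at h
    exact hcon ⟨S, h.1, h.2⟩
  have hw := hD.isW
  have hs := hw.toIsSym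
  obtain ⟨A, hM⟩ := exists_maxCut w hs
  have h1 := hA V w t τ ν δ hD hF A hM
  have h2 := hB V w t τ ν δ hD A h1
  have e_nn : 0 ≤ ee w A A := by
    have : ee w A A = ∑ v ∈ A, ee w A {v} := by
      unfold ee
      rw [Finset.sum_sub_distrib, ← E_eq_sum_left, ← E_eq_sum_left]
    rw [this]
    exact Finset.sum_nonneg h1.e_nonneg
  have h3 := h1.e_sum
  have h4 := h1.z_lo
  have h5 := h2.yz
  rcases hδ with hδ | hδ
  · subst hδ
    linarith
  · obtain ⟨C, hC'⟩ := hC V w t τ ν δ hD hδ hF A hM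
    have h6 := hG V w t δ C hC'
    obtain ⟨S, hS⟩ := P_cut hs h6
    have h7 := hM.max S
    have h8 : E w A Aᶜ = τ + yy w τ A := by unfold yy; ring
    rw [hD.tot] at hS
    rw [h8] at h7
    linarith

end Pool.Agent.JB
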