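import Pool.Agent.JB.Stmts

/-!
Judicious bipartitions (MP_abf15b_co): sign sums of nearly complete sets.
-/

set_option autoImplicit false

namespace Pool.Agent.JB

open Finset

theorem rest_even (hS : SwapStmt) {V : Type} [Fintype V] [DecidableEq V] (w : V → V → ℝ)
    (κ : ℝ) (hw : IsW w) (hκ : 0 ≤ κ) (C : Finset V)
    (hC : ∀ v ∈ C, (C.card : ℝ) - 1 - κ ≤ E w {v} C) (R : Finset V) (hR : R ⊆ C)
    (ρ : ℕ) (hρ : R.card = 2 * ρ) : P w R (-(R.card : ℝ) + 2 * κ) := by
  rcases Nat.eq_zero_or_pos ρ with h0 | h0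
  · have : R = ∅ := by rw [← Finset.card_eq_zero]; omega
    subst this
    refine P_mono ?_ P_empty
    simp; linarith
  · refine P_mono ?_ (hS V w hw.toIsSym ρ R h0 hρ)
    have hd : ∀ v ∈ R, (R.card : ℝ) - 1 - κ ≤ E w {v} R := by
      intro v hv
      have h1 := nonnbr_mono hw hv hR
      have h2 := hC v (hR hv)
      linarith
    have hE : (R.card : ℝ) * ((R.card : ℝ) - 1 - κ) ≤ E w R R := by
      rw [E_eq_sum_left]
      calc (R.card : ℝ) * ((R.card : ℝ) - 1 - κ) = ∑ _v ∈ R, ((R.card : ℝ) - 1 - κ) := by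
            rw [Finset.sum_const, nsmul_eq_mul]
        _ ≤ _ := Finset.sum_le_sum hd
    have hc : (R.card : ℝ) = 2 * ρ := by rw [hρ]; push_cast; ring
    have hρ' : (1 : ℝ) ≤ ρ := by exact_mod_cast h0
    have hpos : (0 : ℝ) < 2 * ρ - 1 := by linarith
    rw [div_le_iff₀ hpos]
    rw [hc] at hE ⊢
    nlinarith [hE, mul_nonneg hκ (by linarith : (0 : ℝ) ≤ ρ - 1)]

theorem rest : SwapStmt → RestStmt := by
  intro hS V _ _ w κ hw hκ C hC R hR
  rcases Nat.even_or_odd' R.card with ⟨ρ, h | h⟩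
  · refine P_mono ?_ (rest_even hS w κ hw hκ C hC R hR ρ h)
    linarith
  · have hne : R.Nonempty := by rw [← Finset.card_pos]; omega
    obtain ⟨v, hv⟩ := hne
    have h1 := rest_even hS w κ hw hκ C hC (R.erase v) ((Finset.erase_subset _ _).trans hR) ρ
      (by rw [Finset.card_erase_of_mem hv]; omega)
    have h2 := P_insert hw.toIsSym (Finset.notMem_erase v R) h1
    rw [Finset.insert_erase hv] at h2
    refine P_mono ?_ h2
    have h3 : ((R.erase v).card : ℝ) = (R.card : ℝ) - 1 := by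
      rw [Finset.card_erase_of_mem hv, Nat.cast_sub (Finset.card_pos.2 ⟨v, hv⟩)]; simp
    linarith

end Pool.Agent.JB
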