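import Pool.Agent.JB.Stmts

/-!
Judicious bipartitions (MP_abf15b_co): the swap inequality (balanced cuts).
-/

set_option autoImplicit false

namespace Pool.Agent.JB

open Finset

theorem swap : SwapStmt := by
  intro V _ _ q hq ρ R hρ hR
  -- a balanced half with maximal cut
  have hne : (R.powersetCard ρ).Nonempty := by
    rw [Finset.powersetCard_nonempty]; omega
  obtain ⟨T, hT, hmax⟩ := Finset.exists_max_image (R.powersetCard ρ)
    (fun T => E q T (R \ T)) hne
  rw [Finset.mem_powersetCard] at hT
  obtain ⟨hTR, hTc⟩ := hT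
  set T' := R \ T with hT'
  have hTc' : T'.card = ρ := by
    rw [hT', Finset.card_sdiff_of_subset hTR]; omega
  have hdisj : Disjoint T T' := Finset.disjoint_sdiff
  have hun : T ∪ T' = R := Finset.union_sdiff_of_subset hTR
  have hER : E q R R = E q T T + E q T' T' + 2 * E q T T' := by
    rw [← hun]; exact E_union_union hq hdisj
  -- the swap inequality
  have hsw : ∀ i ∈ T, ∀ j ∈ T',
      E q {i} T + E q {j} T' + 2 * q i j ≤ E q {i} T' + E q {j} T := by
    intro i hi j hj
    have hij : i ≠ j := fun h => Finset.disjoint_left.1 hdisj hi (h ▸ hj)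
    have hjT : j ∉ T := Finset.disjoint_right.1 hdisj hj
    have hiT' : i ∉ T' := Finset.disjoint_left.1 hdisj hi
    have hjE : j ∉ T.erase i := fun h => hjT (Finset.mem_of_mem_erase h)
    have hiE : i ∉ T'.erase j := fun h => hiT' (Finset.mem_of_mem_erase h)
    have hmem : insert j (T.erase i) ∈ R.powersetCard ρ := by
      rw [Finset.mem_powersetCard]
      refine ⟨?_, ?_⟩
      · intro x hx
        rw [Finset.mem_insert] at hx
        rcases hx with rfl | hx
        · exact (Finset.mem_sdiff.1 hj).1
        · exact hTR (Finset.mem_of_mem_erase hx)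
      · rw [Finset.card_insert_of_notMem hjE, Finset.card_erase_of_mem hi]
        omega
    have hcomp : R \ insert j (T.erase i) = insert i (T'.erase j) := by
      ext x
      simp only [Finset.mem_sdiff, Finset.mem_insert, Finset.mem_erase, hT']
      constructor
      · rintro ⟨hxR, hx⟩
        by_cases hxi : x = i
        · exact Or.inl hxi
        · refine Or.inr ⟨fun h => hx (Or.inl h), hxR, fun h => hx (Or.inr ⟨hxi, h⟩)⟩
      · rintro (rfl | ⟨h1, h2, h3⟩)
        · exact ⟨hTR hi, fun h => by
            rcases h with h | h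
            · exact hij h
            · exact h.1 rfl⟩
        · exact ⟨h2, fun h => by
            rcases h with h | h
            · exact h1 h
            · exact h3 h.2⟩
    have h1 := hmax _ hmem
    simp only [hcomp] at h1
    have h2 : E q (insert j (T.erase i)) (insert i (T'.erase j)) =
        E q T T' - E q {i} T' - E q {j} T + E q {i} T + E q {j} T' + 2 * q i j := by
      rw [E_insert_left hjE, E_erase_left hi, E_insert_right _ hiE, E_insert_right _ hiE,
        E_insert_right _ hiE, E_erase_right _ hj, E_erase_right _ hj, E_erase_right _ hj,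
        E_self hq, E_self hq, E_comm hq T {i}, E_comm hq T {j}, E_singleton_singleton,
        E_singleton_singleton, hq.symm j i]
      ring
    rw [h2] at h1
    linarith
  -- summing
  have hsum : (ρ : ℝ) * E q T T + ρ * E q T' T' + 2 * E q T T' ≤
      ρ * E q T T' + ρ * E q T T' := by
    have h1 : ∑ i ∈ T, ∑ j ∈ T', (E q {i} T + E q {j} T' + 2 * q i j) ≤
        ∑ i ∈ T, ∑ j ∈ T', (E q {i} T' + E q {j} T) :=
      Finset.sum_le_sum fun i hi => Finset.sum_le_sum fun j hj => hsw i hi j hj
    have h2 : ∑ i ∈ T, ∑ j ∈ T', (E q {i} T + E q {j} T' + 2 * q i j) =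
        (ρ : ℝ) * E q T T + ρ * E q T' T' + 2 * E q T T' := by
      simp only [Finset.sum_add_distrib, Finset.sum_const, nsmul_eq_mul, hTc', hTc,
        ← Finset.mul_sum]
      rw [← E_eq_sum_left, ← E_eq_sum_left]
      rfl
    have h3 : ∑ i ∈ T, ∑ j ∈ T', (E q {i} T' + E q {j} T) =
        (ρ : ℝ) * E q T T' + ρ * E q T T' := by
      simp only [Finset.sum_add_distrib, Finset.sum_const, nsmul_eq_mul, hTc', hTc,
        ← Finset.mul_sum]
      rw [← E_eq_sum_left, ← E_eq_sum_left, E_comm hq T' T]
    rw [h2, h3] at h1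
    exact h1
  -- conclusion
  have hP := P_block hq hdisj
  rw [hun] at hP
  refine P_mono ?_ hP
  have hρ' : (1 : ℝ) ≤ ρ := by exact_mod_cast hρ
  have hpos : (0 : ℝ) < 2 * ρ - 1 := by linarith
  rw [le_div_iff₀ hpos, hER]
  nlinarith [hsum]

end Pool.Agent.JB
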