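import Pool.Agent.JB.Stmts

/-!
Judicious bipartitions (MP_abf15b_co): module UP.
-/

set_option autoImplicit false
set_option linter.unusedSectionVars false
set_option linter.unusedVariables false

namespace Pool.Agent.JB

open Finset

/-- the edges of the complete graph on `T` -/
def upK {n : ℕ} (T : Finset (Fin n)) : Finset (Sym2 (Fin n)) :=
  T.offDiag.image Sym2.mk.uncurry

theorem up_card {n : ℕ} (T : Finset (Fin n)) : (upK T).card = T.card.choose 2 :=
  Sym2.card_image_offDiag T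

theorem up_mem {n : ℕ} {T : Finset (Fin n)} {e : Sym2 (Fin n)} (he : e ∈ upK T) :
    ¬ e.IsDiag ∧ ∀ v ∈ e, v ∈ T := by
  unfold upK at he
  obtain ⟨⟨a, b⟩, hab, rfl⟩ := Finset.mem_image.1 he
  rw [Finset.mem_offDiag] at hab
  refine ⟨fun h => hab.2.2 (Sym2.mk_isDiag_iff.1 h), ?_⟩
  intro v hv
  rcases Sym2.mem_iff.1 hv with rfl | rfl
  · exact hab.1
  · exact hab.2.1

theorem up_mono {n : ℕ} {T T' : Finset (Fin n)} (h : T ⊆ T') : upK T ⊆ upK T' :=
  Finset.image_subset_image (Finset.offDiag_mono h)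

/-- the graph with edge set `u` has `gG` at least what the clique forces -/
theorem up_exists (m j : ℕ) : ∃ (n : ℕ) (u : Finset (Sym2 (Fin n))), u.card = m ∧
    (∀ e ∈ u, ¬ e.IsDiag) ∧ ∀ S : Finset (Fin n),
      (j + 1).choose 2 ≤ (u.filter (fun e => ∀ v ∈ e, v ∈ S)).card + ((2 * j + 1).choose 2 - m) ∨
      (j + 1).choose 2 ≤ (u.filter (fun e => ∀ v ∈ e, v ∉ S)).card + ((2 * j + 1).choose 2 - m) := by
  obtain ⟨n, hn⟩ : ∃ n, n = m + 2 * j + 2 := ⟨_, rfl⟩
  obtain ⟨T0, -, hT0⟩ : ∃ T0 ⊆ (Finset.univ : Finset (Fin n)), T0.card = 2 * j + 1 :=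
    Finset.exists_subset_card_eq (by rw [Finset.card_univ, Fintype.card_fin]; omega)
  have hF : (upK T0).card = (2 * j + 1).choose 2 := by rw [up_card, hT0]
  have huniv : m ≤ (upK (Finset.univ : Finset (Fin n))).card := by
    rw [up_card, Finset.card_univ, Fintype.card_fin, Nat.choose_two_right,
      Nat.le_div_iff_mul_le (by norm_num)]
    rw [hn]
    have : m + 2 * j + 2 - 1 = m + 2 * j + 1 := by omega
    rw [this]
    nlinarith
  have hu : ∃ u : Finset (Sym2 (Fin n)), u.card = m ∧ u ⊆ upK Finset.univ ∧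
      (upK T0 \ u).card = (2 * j + 1).choose 2 - m := by
    rcases le_total (upK T0).card m with h | h
    · obtain ⟨u, hu1, hu2, hu3⟩ := Finset.exists_subsuperset_card_eq
        (up_mono (Finset.subset_univ T0)) h huniv
      refine ⟨u, hu3, hu2, ?_⟩
      rw [Finset.sdiff_eq_empty_iff_subset.2 hu1, Finset.card_empty]
      omega
    · obtain ⟨u, hu1, hu2⟩ := Finset.exists_subset_card_eq h
      refine ⟨u, hu2, hu1.trans (up_mono (Finset.subset_univ T0)), ?_⟩
      rw [Finset.card_sdiff_of_subset hu1, hF, hu2]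
  obtain ⟨u, hu1, hu2, hu3⟩ := hu
  refine ⟨n, u, hu1, fun e he => (up_mem (hu2 he)).1, fun S => ?_⟩
  have key : ∀ T : Finset (Fin n), T ⊆ T0 → j + 1 ≤ T.card →
      ∀ (p : Sym2 (Fin n) → Prop) [DecidablePred p], (∀ e : Sym2 (Fin n), (∀ v ∈ e, v ∈ T) → p e) →
      (j + 1).choose 2 ≤ (u.filter p).card + ((2 * j + 1).choose 2 - m) := by
    intro T hT hTc p _ hp
    have h1 : (j + 1).choose 2 ≤ (upK T).card := by
      rw [up_card]
      exact Nat.choose_le_choose 2 hTc
    have h2 : upK T ⊆ u.filter p ∪ (upK T0 \ u) := by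
      intro e he
      rw [Finset.mem_union, Finset.mem_filter, Finset.mem_sdiff]
      by_cases h : e ∈ u
      · exact Or.inl ⟨h, hp e (up_mem he).2⟩
      · exact Or.inr ⟨up_mono hT he, h⟩
    have h3 := (Finset.card_le_card h2).trans (Finset.card_union_le _ _)
    rw [hu3] at h3
    exact h1.trans h3
  have hsplit := Finset.card_filter_add_card_filter_not (s := T0) (fun v => v ∈ S)
  by_cases h : j + 1 ≤ (T0.filter (fun v => v ∈ S)).card
  · left
    refine key _ (Finset.filter_subset _ _) h _ ?_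
    intro e he v hv
    exact (Finset.mem_filter.1 (he v hv)).2
  · right
    refine key (T0.filter (fun v => ¬ v ∈ S)) (Finset.filter_subset _ _) (by omega) _ ?_
    intro e he v hv
    exact (Finset.mem_filter.1 (he v hv)).2

theorem up_gG_eq {n : ℕ} (G : SimpleGraph (Fin n)) (u : Finset (Sym2 (Fin n)))
    (hE : ∀ (i : Fintype G.edgeSet), @SimpleGraph.edgeFinset _ G i = u) :
    open Classical in
    gG G = sInf {k : ℕ | ∃ S : Finset (Fin n),
      k = max (u.filter (fun e => ∀ v ∈ e, v ∈ S)).card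
            (u.filter (fun e => ∀ v ∈ e, v ∉ S)).card} := by
  unfold gG
  simp only [hE]

theorem up_gG_le {n : ℕ} (G : SimpleGraph (Fin n)) (u : Finset (Sym2 (Fin n)))
    (hE : ∀ (i : Fintype G.edgeSet), @SimpleGraph.edgeFinset _ G i = u) :
    gG G ≤ u.card := by
  classical
  rw [up_gG_eq G u hE]
  have h : sInf {k : ℕ | ∃ S : Finset (Fin n),
      k = max (u.filter (fun e => ∀ v ∈ e, v ∈ S)).card
            (u.filter (fun e => ∀ v ∈ e, v ∉ S)).card} ≤
      max (u.filter (fun e => ∀ v ∈ e, v ∈ (Finset.univ : Finset (Fin n)))).card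
      (u.filter (fun e => ∀ v ∈ e, v ∉ (Finset.univ : Finset (Fin n)))).card :=
    Nat.sInf_le ⟨Finset.univ, rfl⟩
  have h' := h.trans (max_le (Finset.card_filter_le _ _) (Finset.card_filter_le _ _))
  exact h'

theorem up_gG_mem {n : ℕ} (G : SimpleGraph (Fin n)) (u : Finset (Sym2 (Fin n)))
    (hE : ∀ (i : Fintype G.edgeSet), @SimpleGraph.edgeFinset _ G i = u) :
    open Classical in
    ∃ S : Finset (Fin n), gG G = max (u.filter (fun e => ∀ v ∈ e, v ∈ S)).card
      (u.filter (fun e => ∀ v ∈ e, v ∉ S)).card := by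
  classical
  rw [up_gG_eq G u hE]
  have hne : ∀ s : Set ℕ, s.Nonempty → sInf s ∈ s := fun s hs => Nat.sInf_mem hs
  exact hne {k : ℕ | ∃ S : Finset (Fin n),
      k = max (u.filter (fun e => ∀ v ∈ e, v ∈ S)).card
            (u.filter (fun e => ∀ v ∈ e, v ∉ S)).card} ⟨_, Finset.univ, rfl⟩

theorem up_le_g (m j : ℕ) : (j + 1).choose 2 ≤ g m + ((2 * j + 1).choose 2 - m) := by
  classical
  obtain ⟨n, u, hu1, hu2, hu3⟩ := up_exists m j
  obtain ⟨G, hG⟩ : ∃ G, G = SimpleGraph.fromEdgeSet (u : Set (Sym2 (Fin n))) := ⟨_, rfl⟩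
  have hE : ∀ (i : Fintype G.edgeSet), @SimpleGraph.edgeFinset _ G i = u := by
    intro i
    ext e
    rw [SimpleGraph.mem_edgeFinset, hG, SimpleGraph.edgeSet_fromEdgeSet]
    constructor
    · rintro ⟨h, _⟩
      exact Finset.mem_coe.1 h
    · intro h
      exact ⟨Finset.mem_coe.2 h, hu2 e h⟩
  have hbdd : BddAbove {k : ℕ | ∃ n : ℕ, ∃ G : SimpleGraph (Fin n),
      G.edgeFinset.card = m ∧ k = gG G} := by
    refine ⟨m, ?_⟩
    rintro k ⟨n, G, hG, rfl⟩
    rw [← hG]
    refine up_gG_le G _ ?_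
    intro i
    ext e
    simp only [SimpleGraph.mem_edgeFinset]
  have h1 : gG G ≤ g m := by
    unfold g
    exact le_csSup hbdd ⟨n, G, by rw [hE]; exact hu1, rfl⟩
  refine le_trans ?_ (Nat.add_le_add_right h1 _)
  obtain ⟨S, hS⟩ := up_gG_mem G u hE
  rw [hS]
  rcases hu3 S with h | h
  · exact h.trans (Nat.add_le_add_right (le_max_left _ _) _)
  · exact h.trans (Nat.add_le_add_right (le_max_right _ _) _)

theorem up : UpStmt := by
  intro m
  have key : ∀ j : ℕ, h m - 1 ≤ |(m : ℝ) - (j : ℝ) * (2 * j + 1)| := by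
    intro j
    have h1 := up_le_g m j
    have c1 : (((j + 1).choose 2 : ℕ) : ℝ) = (j : ℝ) * (j + 1) / 2 := by
      rw [Nat.cast_choose_two]; push_cast; ring
    have c2 : (((2 * j + 1).choose 2 : ℕ) : ℝ) = (j : ℝ) * (2 * j + 1) := by
      rw [Nat.cast_choose_two]; push_cast; ring
    have hj : (0 : ℝ) ≤ j := Nat.cast_nonneg j
    have hm : (0 : ℝ) ≤ m := Nat.cast_nonneg m
    unfold h
    rcases le_total ((2 * j + 1).choose 2) m with hle | hle
    · rw [Nat.sub_eq_zero_of_le hle, add_zero] at h1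
      have h1' : (((j + 1).choose 2 : ℕ) : ℝ) ≤ (g m : ℝ) := by exact_mod_cast h1
      have hle' : (((2 * j + 1).choose 2 : ℕ) : ℝ) ≤ (m : ℝ) := by exact_mod_cast hle
      rw [c1] at h1'
      rw [c2] at hle'
      rw [abs_of_nonneg (by linarith)]
      have hs : Real.sqrt ((m : ℝ) / 32) ≤
          (j : ℝ) / 4 + 1 + 3 * ((m : ℝ) - (j : ℝ) * (2 * j + 1)) / 4 := by
        rw [Real.sqrt_le_left (by nlinarith)]
        nlinarith
      linarith
    · have h1' : (((j + 1).choose 2 : ℕ) : ℝ) ≤ (g m : ℝ) +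
          ((((2 * j + 1).choose 2 : ℕ) : ℝ) - (m : ℝ)) := by
        rw [← Nat.cast_sub hle]
        exact_mod_cast h1
      have hle' : (m : ℝ) ≤ (((2 * j + 1).choose 2 : ℕ) : ℝ) := by exact_mod_cast hle
      rw [c1, c2] at h1'
      rw [c2] at hle'
      rw [abs_of_nonpos (by linarith)]
      have hs : Real.sqrt ((m : ℝ) / 32) ≤ (j : ℝ) / 4 + 1 := by
        rw [Real.sqrt_le_left (by positivity)]
        nlinarith
      linarith
  have : h m - 1 ≤ dT m := le_ciInf key
  linarith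

end Pool.Agent.JB
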