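import Pool.Agent.JB.L1A
import Pool.Agent.JB.L1B
import Pool.Agent.JB.Core
import Pool.Agent.JB.Main
import Pool.Agent.JB.Swap
import Pool.Agent.JB.Edw
import Pool.Agent.JB.Rest
import Pool.Agent.JB.Gain1
import Pool.Agent.JB.Gain2
import Pool.Agent.JB.Gain
import Pool.Agent.JB.Low
import Pool.Agent.JB.Up

/-!
Judicious bipartitions (MP_abf15b_co): assembly.
-/

set_option autoImplicit false
set_option linter.unusedSectionVars false
set_option linter.unusedVariables false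

namespace Pool.Agent.JB

open Finset

theorem low_final : LowStmt :=
  low (main (edw swap) l1a l1b (core (edw swap) l1a l1b) (gain (rest swap) gain1 gain2))

/-- the distance of `C(2t,2)` to the set of the `C(2j+1,2)` is at least `2t-1` -/
theorem dT_mid (t : ℕ) (ht : 1 ≤ t) : 2 * (t : ℝ) - 1 ≤ dT (t * (2 * t - 1)) := by
  have hm : ((t * (2 * t - 1) : ℕ) : ℝ) = t * (2 * t - 1) := by
    rw [Nat.cast_mul, Nat.cast_sub (by omega)]; push_cast; ring
  refine le_ciInf fun j => ?_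
  rw [hm]
  rcases Nat.lt_or_ge j t with h | h
  · have h1 : (j : ℝ) + 1 ≤ t := by exact_mod_cast h
    have h0 : (0 : ℝ) ≤ j := Nat.cast_nonneg _
    refine le_trans ?_ (le_abs_self _)
    nlinarith
  · have h1 : (t : ℝ) ≤ j := by exact_mod_cast h
    have h0 : (1 : ℝ) ≤ t := by exact_mod_cast ht
    refine le_trans ?_ (neg_le_abs _)
    nlinarith

/-- the distance is at most `√(2m) + 3/2` -/
theorem dT_le_sqrt (m : ℕ) : dT m ≤ Real.sqrt (2 * m) + 3 / 2 := by
  have hex : ∃ t : ℕ, m < t * (2 * t + 1) := ⟨m + 1, by nlinarith⟩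
  classical
  obtain ⟨t, ht1, ht2⟩ : ∃ t : ℕ, m < t * (2 * t + 1) ∧ ∀ s < t, ¬ m < s * (2 * s + 1) :=
    ⟨Nat.find hex, Nat.find_spec hex, fun s hs => Nat.find_min hex hs⟩
  have htpos : t ≠ 0 := by rintro rfl; simp at ht1
  obtain ⟨j, rfl⟩ := Nat.exists_eq_succ_of_ne_zero htpos
  have h1 := ht2 j (Nat.lt_succ_self j)
  push Not at h1
  have h1' : (j : ℝ) * (2 * j + 1) ≤ m := by exact_mod_cast h1
  have h2' : (m : ℝ) < (j + 1) * (2 * (j + 1) + 1) := by exact_mod_cast ht1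
  have h3 := low_dT_le m j
  have h4 := low_dT_le m (j + 1)
  rw [abs_of_nonneg (by linarith)] at h3
  push_cast at h4
  rw [abs_of_nonpos (by linarith)] at h4
  have h5 : 2 * (j : ℝ) ≤ Real.sqrt (2 * m) := by
    have h0 : (0 : ℝ) ≤ j := Nat.cast_nonneg _
    apply Real.le_sqrt_of_sq_le
    nlinarith
  nlinarith

theorem final :
    (∀ m : ℕ, 20000 ≤ m → dT m / 2000 - 5 / 4 ≤ h m) ∧
    (∀ m : ℕ, h m ≤ dT m + 1) ∧
    (∀ t : ℕ, 5000 ≤ t →
      Real.sqrt ((t * (2 * t - 1) : ℕ) : ℝ) / 2000 ≤ h (t * (2 * t - 1))) ∧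
    (∀ m : ℕ, h m ≤ Real.sqrt (2 * m) + 3) := by
  refine ⟨low_final, up, fun t ht => ?_, fun m => ?_⟩
  · have hm : 20000 ≤ t * (2 * t - 1) := by
      have : 5000 * 4 ≤ t * (2 * t - 1) := Nat.mul_le_mul ht (by omega)
      omega
    have h1 := low_final _ hm
    have h2 := dT_mid t (by omega)
    have ht' : (5000 : ℝ) ≤ t := by exact_mod_cast ht
    have h3 : Real.sqrt ((t * (2 * t - 1) : ℕ) : ℝ) ≤ 1.4143 * t := by
      rw [Nat.cast_mul, Nat.cast_sub (by omega)]
      push_cast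
      apply Real.sqrt_le_iff.2
      constructor
      · positivity
      · nlinarith
    linarith
  · have h1 := up m
    have h2 := dT_le_sqrt m
    linarith

end Pool.Agent.JB
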