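import Pool.Agent.JB.Stmts

/-!
Judicious bipartitions (MP_abf15b_co): module L1A, the first half of the structure lemma.
-/

set_option autoImplicit false
set_option linter.unusedSectionVars false
set_option linter.unusedVariables false

namespace Pool.Agent.JB

open Finset

section

variable {V : Type} [Fintype V] [DecidableEq V] {w : V → V → ℝ}

theorem gg_insert (hw : IsSym w) (A : Finset V) {v : V} {S : Finset V} (h : v ∉ S) :
    gg w A (insert v S) = gg w A S + E w {v} A - E w {v} S := by
  unfold gg
  rw [E_insert_left h, E_insert_insert hw h]; ring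

theorem gg_empty (A : Finset V) : gg w A ∅ = 0 := by
  simp [gg, E_empty_left]

theorem ee_insert (A : Finset V) {v : V} {S : Finset V} (h : v ∉ S) :
    ee w A (insert v S) = ee w A {v} + ee w A S := by
  unfold ee
  rw [E_insert_left h, E_insert_left h]; ring

theorem ee_eq_sum (A S : Finset V) : ee w A S = ∑ v ∈ S, ee w A {v} := by
  unfold ee
  rw [Finset.sum_sub_distrib, ← E_eq_sum_left, ← E_eq_sum_left]

/-- `2 gg S ≥ E(S,S) + 2 d_S(v)` when `S ⊆ A`, `v ∈ A \ S` -/
theorem gg_ge (hw : IsW w) {A : Finset V} {v : V} {S : Finset V} (hS : S ⊆ A) (hv : v ∈ A)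
    (h : v ∉ S) : E w S S + 2 * E w {v} S ≤ 2 * gg w A S := by
  have h1 : E w S (insert v S) ≤ E w S A :=
    E_mono_right hw S (Finset.insert_subset hv hS)
  rw [E_insert_right S h, E_comm hw.toIsSym S {v}] at h1
  unfold gg
  linarith

theorem gg_step (hw : IsW w) {A : Finset V} {v : V} {S : Finset V} (hS : S ⊆ A) (hv : v ∈ A)
    (h : v ∉ S) :
    gg w A (insert v S) + E w (insert v S) (insert v S) ≤ 3 * gg w A S + E w {v} A := by
  have h1 := gg_ge hw hS hv h
  have h2 := E_nonneg hw {v} S
  rw [gg_insert hw.toIsSym A h, E_insert_insert hw.toIsSym h]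
  linarith

theorem gg_ge_half (hw : IsW w) {A S : Finset V} (hS : S ⊆ A) : E w S A ≤ 2 * gg w A S := by
  have := E_mono_right hw S hS
  unfold gg; linarith

end

theorem l1a : L1aStmt := by
  intro V _ _ w t τ ν δ hD hF A hM
  have hw := hD.isW
  have hs := hw.toIsSym
  have ht : (100 : ℝ) ≤ t := by exact_mod_cast hD.ht
  have hAA : E w A A = τ + 2 * zz w τ A := by unfold zz; ring
  have hAB : E w A Aᶜ = τ + yy w τ A := by unfold yy; ring
  have hBB : E w Aᶜ Aᶜ = τ - 2 * t - 2 * yy w τ A - 2 * zz w τ A := by
    have h1 := E_total hs A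
    rw [hD.tot, hAA, hAB] at h1
    linarith
  have z_lo : -δ < zz w τ A := by
    have h1 := hM.big
    rcases hF A with h | h <;> linarith
  have e_nonneg : ∀ v ∈ A, 0 ≤ ee w A {v} := by
    intro v hv
    have h1 := hM.max (A.erase v)
    have h2 : (A.erase v)ᶜ = insert v Aᶜ := by
      ext x; simp only [Finset.mem_compl, Finset.mem_erase, Finset.mem_insert]; tauto
    have h3 : v ∉ Aᶜ := by simpa using hv
    rw [h2, E_insert_right _ h3, E_erase_left hv, E_erase_left hv, E_self hs,
      E_comm hs A {v}] at h1
    unfold ee; linarith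
  have e_sum : ee w A A = yy w τ A - 2 * zz w τ A := by
    unfold ee; rw [hAA, hAB]; ring
  have dich : ∀ S : Finset V, S ⊆ A → gg w A S < zz w τ A + δ ∨
      t + yy w τ A + zz w τ A - δ < gg w A S + E w S S + ee w A S := by
    intro S hS
    have h1 : E w (A \ S) (A \ S) = τ + 2 * zz w τ A - 2 * gg w A S := by
      rw [E_sdiff_sdiff hs hS, hAA]; unfold gg; ring
    have h2 : (A \ S)ᶜ = Aᶜ ∪ S := by
      ext x; simp only [Finset.mem_compl, Finset.mem_sdiff, Finset.mem_union]; tauto
    have hd : Disjoint Aᶜ S := by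
      rw [Finset.disjoint_left]; intro x hx hx'
      exact (Finset.mem_compl.1 hx) (hS hx')
    have h3 : E w (A \ S)ᶜ (A \ S)ᶜ = τ - 2 * t - 2 * yy w τ A - 2 * zz w τ A +
        2 * gg w A S + 2 * E w S S + 2 * ee w A S := by
      rw [h2, E_union_union hs hd, hBB, E_comm hs Aᶜ S]; unfold gg ee; ring
    rcases hF (A \ S) with h | h
    · left; rw [h1] at h; linarith
    · right; rw [h3] at h; linarith
  -- small vertices
  have hsub : A \ big w t δ A ⊆ A := Finset.sdiff_subset
  have hsmall : ∀ v ∈ A \ big w t δ A, E w {v} A ≤ t - 4 * δ := by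
    intro v hv
    rw [Finset.mem_sdiff] at hv
    by_contra hc
    push Not at hc
    exact hv.2 (by unfold big; simp only [Finset.mem_filter]; exact ⟨hv.1, hc⟩)
  have key : ∀ S : Finset V, S ⊆ A \ big w t δ A → gg w A S < zz w τ A + δ := by
    intro S
    induction S using Finset.induction_on with
    | empty => intro _; rw [gg_empty]; linarith
    | insert v S hv ih =>
      intro hS
      have hSs : S ⊆ A \ big w t δ A := (Finset.subset_insert v S).trans hS
      have hvA : v ∈ A \ big w t δ A := hS (Finset.mem_insert_self v S)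
      have ih' := ih hSs
      rcases dich (insert v S) (hS.trans hsub) with h | h
      · exact h
      · exfalso
        have h1 := gg_step hw (hSs.trans hsub) (hsub hvA) hv
        have h2 := hsmall v hvA
        have h3 : ee w A (insert v S) ≤ ee w A A := by
          rw [ee_eq_sum, ee_eq_sum A A]
          exact Finset.sum_le_sum_of_subset_of_nonneg (hS.trans hsub)
            (fun u hu _ => e_nonneg u hu)
        rw [e_sum] at h3
        linarith
  have hk := key _ (subset_refl _)
  have rest : E w (A \ big w t δ A) A < 2 * (zz w τ A + δ) := by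
    have := gg_ge_half hw hsub
    linarith
  have hbig : big w t δ A ⊆ A := by unfold big; exact Finset.filter_subset _ _
  have card : t + 1 ≤ (big w t δ A).card := by
    have h1 : E w (big w t δ A) (big w t δ A) = τ + 2 * zz w τ A - 2 * gg w A (A \ big w t δ A) := by
      have h2 : A \ (A \ big w t δ A) = big w t δ A := Finset.sdiff_sdiff_eq_self hbig
      have h3 := E_sdiff_sdiff hs hsub
      rw [h2, hAA] at h3
      rw [h3]; unfold gg; ring
    have h2 := E_self_le hw (big w t δ A)
    by_contra hc
    push Not at hc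
    have hc' : ((big w t δ A).card : ℝ) ≤ t := by exact_mod_cast Nat.lt_succ_iff.1 hc
    have h3 : ((big w t δ A).card : ℝ) * ((big w t δ A).card - 1) ≤ t * (t - 1) := by
      have h0 : (0 : ℝ) ≤ (big w t δ A).card := Nat.cast_nonneg _
      nlinarith
    have h4 := hD.lo
    have h5 := hD.hδν
    have h6 := hD.hδ
    nlinarith
  exact ⟨z_lo, e_nonneg, e_sum, dich, rest, card⟩

end Pool.Agent.JB
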