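import Pool.Agent.JB.Basic

/-!
Judicious bipartitions (MP_abf15b_co): statements of the modules.
The paper proof is in the team store: MP_abf15b_PROOF.md
-/

set_option autoImplicit false
set_option linter.unusedSectionVars false
set_option linter.unusedVariables false

namespace Pool.Agent.JB

open Finset

/-- module SWAP -/
def SwapStmt : Prop :=
  ∀ (V : Type) [Fintype V] [DecidableEq V] (q : V → V → ℝ), IsSym q →
    ∀ (ρ : ℕ) (R : Finset V), 1 ≤ ρ → R.card = 2 * ρ →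
      P q R (-(E q R R) / (2 * ρ - 1))

/-- module EDW -/
def EdwStmt : Prop :=
  ∀ (V : Type) [Fintype V] [DecidableEq V] (w : V → V → ℝ) (t : ℕ) (τ ν δ : ℝ),
    Data w t τ ν δ → ∃ S : Finset V, τ - 1 ≤ E w S Sᶜ

/-- module REST -/
def RestStmt : Prop :=
  ∀ (V : Type) [Fintype V] [DecidableEq V] (w : V → V → ℝ) (κ : ℝ), IsW w → 0 ≤ κ →
    ∀ C : Finset V, (∀ v ∈ C, (C.card : ℝ) - 1 - κ ≤ E w {v} C) →
      ∀ R : Finset V, R ⊆ C → P w R (-(R.card : ℝ) + 1 + 2 * κ)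

/-- a large nearly complete set that misses at least `54 δ` edges -/
structure Dense {V : Type} [Fintype V] [DecidableEq V] (w : V → V → ℝ) (t : ℕ) (δ : ℝ)
    (C : Finset V) : Prop where
  isW : IsW w
  one : 1 ≤ δ
  small : 1000 * δ ≤ t
  card : 2 * t + 1 ≤ C.card
  nn : ∀ v ∈ C, (C.card : ℝ) - 1 - 50 * δ ≤ E w {v} C
  miss : 108 * δ ≤ (C.card : ℝ) * (C.card - 1) - E w C C

/-- module GAIN1 -/
def Gain1Stmt : Prop :=
  ∀ (V : Type) [Fintype V] [DecidableEq V] (w : V → V → ℝ) (t : ℕ) (δ : ℝ) (C : Finset V),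
    Dense w t δ C → ∀ k : ℕ, (k : ℝ) ≤ 55 * δ →
      (∃ S : Finset V, S ⊆ C ∧ S.card = 4 * k ∧ P w S (-(6 * k))) ∨
      (∃ Z : Finset V, Z ⊆ C ∧ Z.card ≤ 4 * k ∧
        ∀ u ∈ C \ Z, ∀ v ∈ C \ Z, u ≠ v → w u v = 1)

/-- module GAIN2 -/
def Gain2Stmt : Prop :=
  ∀ (V : Type) [Fintype V] [DecidableEq V] (w : V → V → ℝ) (t : ℕ) (δ : ℝ) (C : Finset V),
    Dense w t δ C → ∀ k : ℕ, 54 * δ ≤ k → (k : ℝ) ≤ 55 * δ →
      ∀ Z : Finset V, Z ⊆ C → Z.card ≤ 4 * k →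
        (∀ u ∈ C \ Z, ∀ v ∈ C \ Z, u ≠ v → w u v = 1) →
        ∃ S : Finset V, S ⊆ C ∧ P w S (-(S.card : ℝ) - 108 * δ)

/-- module GAIN (from REST, GAIN1, GAIN2) -/
def GainStmt : Prop :=
  ∀ (V : Type) [Fintype V] [DecidableEq V] (w : V → V → ℝ) (t : ℕ) (δ : ℝ) (C : Finset V),
    Dense w t δ C → P w C (-(2 * t) - 8 * δ)

section

variable {V : Type} [Fintype V] [DecidableEq V]

/-- `E(A,A) = τ + 2 z` -/
noncomputable def zz (w : V → V → ℝ) (τ : ℝ) (A : Finset V) : ℝ := (E w A A - τ) / 2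

/-- `E(A,Aᶜ) = τ + y` -/
noncomputable def yy (w : V → V → ℝ) (τ : ℝ) (A : Finset V) : ℝ := E w A Aᶜ - τ

/-- the vertices of `A` with large degree inside `A` -/
noncomputable def big (w : V → V → ℝ) (t : ℕ) (δ : ℝ) (A : Finset V) : Finset V :=
  open Classical in A.filter fun v => (t : ℝ) - 4 * δ < E w {v} A

/-- `gg S = E(S,A) - E(S,S)/2`: the loss of `E(A,A)/2` when `S` leaves `A` -/
noncomputable def gg (w : V → V → ℝ) (A S : Finset V) : ℝ := E w S A - E w S S / 2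

/-- `ee S = E(S,Aᶜ) - E(S,A)` -/
noncomputable def ee (w : V → V → ℝ) (A S : Finset V) : ℝ := E w S Aᶜ - E w S A

/-- first half of the structure lemma -/
structure L1a (w : V → V → ℝ) (t : ℕ) (τ δ : ℝ) (A : Finset V) : Prop where
  z_lo : -δ < zz w τ A
  e_nonneg : ∀ v ∈ A, 0 ≤ ee w A {v}
  e_sum : ee w A A = yy w τ A - 2 * zz w τ A
  dich : ∀ S : Finset V, S ⊆ A → gg w A S < zz w τ A + δ ∨
    t + yy w τ A + zz w τ A - δ < gg w A S + E w S S + ee w A S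
  rest : E w (A \ big w t δ A) A < 2 * (zz w τ A + δ)
  card : t + 1 ≤ (big w t δ A).card

/-- the structure lemma -/
structure L1 (w : V → V → ℝ) (t : ℕ) (τ δ : ℝ) (A : Finset V) : Prop
    extends L1a w t τ δ A where
  yz : yy w τ A + zz w τ A < δ
  dB : ∀ v ∈ big w t δ A, t + yy w τ A + zz w τ A - δ < E w {v} Aᶜ

end

/-- module L1A -/
def L1aStmt : Prop :=
  ∀ (V : Type) [Fintype V] [DecidableEq V] (w : V → V → ℝ) (t : ℕ) (τ ν δ : ℝ),
    Data w t τ ν δ → Fail w τ δ → ∀ A : Finset V, MaxCut w A → L1a w t τ δ A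

/-- module L1B (from the conclusion of L1A only) -/
def L1bStmt : Prop :=
  ∀ (V : Type) [Fintype V] [DecidableEq V] (w : V → V → ℝ) (t : ℕ) (τ ν δ : ℝ),
    Data w t τ ν δ → ∀ A : Finset V, L1a w t τ δ A → L1 w t τ δ A

/-- module CORE: the dense set -/
def CoreStmt : Prop :=
  ∀ (V : Type) [Fintype V] [DecidableEq V] (w : V → V → ℝ) (t : ℕ) (τ ν δ : ℝ),
    Data w t τ ν δ → 1 ≤ δ → Fail w τ δ → ∀ A : Finset V, MaxCut w A →
      ∃ C : Finset V, Dense w t δ C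

/-- module MAIN -/
def MainStmt : Prop :=
  ∀ (V : Type) [Fintype V] [DecidableEq V] (w : V → V → ℝ) (t : ℕ) (τ ν δ : ℝ),
    Data w t τ ν δ → (δ = 0 ∨ 1 ≤ δ) →
      ∃ S : Finset V, E w S S ≤ τ - 2 * δ ∧ E w Sᶜ Sᶜ ≤ τ - 2 * δ

/-- module LOW -/
def LowStmt : Prop := ∀ m : ℕ, 20000 ≤ m → dT m / 2000 - 5 / 4 ≤ h m

/-- module UP -/
def UpStmt : Prop := ∀ m : ℕ, h m ≤ dT m + 1

end Pool.Agent.JB
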