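import Pool.Agent.JB.L1A
import Pool.Agent.JB.Edw
import Pool.Agent.JB.Swap

/-!
Judicious bipartitions (MP_abf15b_co): exact values near `C(2t+1,2)`.
Data with `τ` close to `t^2 + t`, the Edwards bound and the structure lemma in this range.
-/

set_option autoImplicit false
set_option linter.unusedSectionVars false
set_option linter.unusedVariables false

namespace Pool.Agent.JB

open Finset

section

variable {V : Type} [Fintype V] [DecidableEq V]

/-- total `4 τ - 2 t` with `τ` within `δ` of `t^2 + t` -/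
structure DX (w : V → V → ℝ) (t : ℕ) (τ δ : ℝ) : Prop where
  isW : IsW w
  tot : E w Finset.univ Finset.univ = 4 * τ - 2 * t
  lo : (t : ℝ) ^ 2 + t - δ ≤ τ
  hi : τ ≤ (t : ℝ) ^ 2 + t + δ
  one : 1 ≤ δ
  small : 1600 * δ ≤ t

/-- the structure lemma near `C(2t+1,2)` -/
structure LX (w : V → V → ℝ) (t : ℕ) (τ δ : ℝ) (A : Finset V) : Prop
    extends L1a w t τ δ A where
  yz : yy w τ A + zz w τ A < 2 * δ
  dB : ∀ v ∈ big w t δ A, t + yy w τ A + zz w τ A - δ < E w {v} Aᶜ

theorem x_colour {w : V → V → ℝ} {t : ℕ} (hw : IsW w)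
    (htot : E w univ univ ≤ 4 * (t : ℝ) ^ 2 + 6 * t) :
    ∀ (n : ℕ) (U : Finset V), U.card = n →
      ∃ c : V → Fin (2 * t + 2), ∀ u ∈ U, ∀ v ∈ U, c u = c v → w u v = 0 := by
  intro n
  induction n with
  | zero =>
    intro U hU
    rw [Finset.card_eq_zero] at hU
    subst hU
    exact ⟨fun _ => ⟨0, by omega⟩, fun u hu => absurd hu (Finset.notMem_empty u)⟩
  | succ n ih =>
    intro U hU
    have hex : ∃ v ∈ U, E w {v} U < 2 * t + 2 := by
      by_contra hno
      push Not at hno
      have hne : U.Nonempty := by rw [← Finset.card_pos]; omega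
      obtain ⟨v, hv⟩ := hne
      have h1 := hno v hv
      have h2 := E_single_le_of_mem hw hv
      have h3 : (2 * (t : ℝ) + 3) ≤ U.card := by linarith
      have h4 : (U.card : ℝ) * (2 * t + 2) ≤ E w U U := by
        rw [E_eq_sum_left]
        calc (U.card : ℝ) * (2 * t + 2) = ∑ _v ∈ U, (2 * (t : ℝ) + 2) := by
              rw [Finset.sum_const, nsmul_eq_mul]
          _ ≤ _ := Finset.sum_le_sum hno
      have h5 := E_mono hw (Finset.subset_univ U) (Finset.subset_univ U)
      have h6 : (0 : ℝ) ≤ t := Nat.cast_nonneg t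
      nlinarith
    obtain ⟨v, hv, hdeg⟩ := hex
    obtain ⟨c, hc⟩ := ih (U.erase v) (by rw [Finset.card_erase_of_mem hv]; omega)
    set N := U.filter fun u => w v u = 1 with hN
    have hNc : (N.card : ℝ) = E w {v} U := by
      rw [E_singleton_left, hN, Finset.card_eq_sum_ones, Nat.cast_sum, Finset.sum_filter]
      refine Finset.sum_congr rfl fun u _ => ?_
      rcases hw.zo v u with h | h <;> simp [h]
    have hNc' : N.card < 2 * t + 2 := by
      have : (N.card : ℝ) < ((2 * t + 2 : ℕ) : ℝ) := by rw [hNc]; push_cast; exact hdeg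
      exact_mod_cast this
    have hcol : ∃ a : Fin (2 * t + 2), a ∉ N.image c := by
      by_contra hno
      push Not at hno
      have h1 : (Finset.univ : Finset (Fin (2 * t + 2))) ⊆ N.image c := fun a _ => hno a
      have h2 := Finset.card_le_card h1
      have h3 := Finset.card_image_le (s := N) (f := c)
      rw [Finset.card_univ, Fintype.card_fin] at h2
      omega
    obtain ⟨a, ha⟩ := hcol
    refine ⟨fun u => if u = v then a else c u, ?_⟩
    have key : ∀ u ∈ U, u ≠ v → c u = a → w v u = 0 := by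
      intro u hu _ hcu
      rcases hw.zo v u with h | h
      · exact h
      · exact absurd (Finset.mem_image.2 ⟨u, Finset.mem_filter.2 ⟨hu, h⟩, hcu⟩) ha
    intro u hu u' hu' heq
    by_cases h1 : u = v
    · by_cases h2 : u' = v
      · rw [h1, h2]; exact hw.diag v
      · simp only [h1, if_true, h2, if_false] at heq
        rw [h1]; exact key u' hu' h2 heq.symm
    · by_cases h2 : u' = v
      · simp only [h1, if_false, h2, if_true] at heq
        rw [h2, hw.symm]; exact key u hu h1 heq
      · simp only [h1, if_false, h2] at heq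
        exact hc u (Finset.mem_erase.2 ⟨h1, hu⟩) u' (Finset.mem_erase.2 ⟨h2, hu'⟩) heq

theorem x_edw {w : V → V → ℝ} {t : ℕ} {τ δ : ℝ} (hD : DX w t τ δ) :
    ∃ S : Finset V, τ - 1 ≤ E w S Sᶜ := by
  have hS := swap
  have hw := hD.isW
  have hone' := hD.one
  have hsm := hD.small
  have htot : E w univ univ ≤ 4 * (t : ℝ) ^ 2 + 6 * t := by
    rw [hD.tot]; have := hD.hi; linarith
  obtain ⟨c, hc⟩ := x_colour hw htot _ (univ : Finset V) rfl
  set q : Fin (2 * t + 2) → Fin (2 * t + 2) → ℝ := fun i j =>
    E w (univ.filter fun v => c v = i) (univ.filter fun v => c v = j) with hq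
  have hqs : IsSym q := by
    refine ⟨fun i j => E_comm hw.toIsSym _ _, fun i => ?_⟩
    simp only [hq, E]
    refine Finset.sum_eq_zero fun u hu => Finset.sum_eq_zero fun v hv => ?_
    rw [Finset.mem_filter] at hu hv
    exact hc u (Finset.mem_univ u) v (Finset.mem_univ v) (hu.2.trans hv.2.symm)
  have hfib : ∀ s : Fin (2 * t + 2) → ℝ, Q w (fun v => s (c v)) univ = Q q s univ := by
    intro s
    unfold Q
    have h1 : ∀ f : V → ℝ, ∑ v, f v = ∑ i, ∑ v ∈ univ.filter (fun v => c v = i), f v := by
      intro f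
      exact (Finset.sum_fiberwise (s := univ) (g := c) (f := f)).symm
    rw [h1]
    refine Finset.sum_congr rfl fun i _ => ?_
    have h2 : ∀ u ∈ univ.filter (fun v => c v = i),
        ∑ v, w u v * s (c u) * s (c v) =
          ∑ j, (∑ v ∈ univ.filter (fun v => c v = j), w u v) * s i * s j := by
      intro u hu
      rw [Finset.mem_filter] at hu
      rw [h1]
      refine Finset.sum_congr rfl fun j _ => ?_
      rw [Finset.sum_mul, Finset.sum_mul]
      refine Finset.sum_congr rfl fun v hv => ?_
      rw [Finset.mem_filter] at hv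
      rw [hu.2, hv.2]
    rw [Finset.sum_congr rfl h2, Finset.sum_comm]
    refine Finset.sum_congr rfl fun j _ => ?_
    rw [← Finset.sum_mul, ← Finset.sum_mul]
    rfl
  have hone : E q univ univ = E w univ univ := by
    have h1 := hfib fun _ => 1
    unfold Q at h1
    unfold E
    simpa using h1.symm
  obtain ⟨s, hs, hQ⟩ := hS _ q hqs (t + 1) univ (by omega) (by
    rw [Finset.card_univ, Fintype.card_fin]; ring)
  have hP : P w univ (-(E q univ univ) / (2 * ((t + 1 : ℕ) : ℝ) - 1)) :=
    ⟨fun v => s (c v), fun v => hs (c v), by rw [hfib]; exact hQ⟩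
  obtain ⟨S, hScut⟩ := P_cut hw.toIsSym hP
  refine ⟨S, le_trans ?_ hScut⟩
  rw [hone, hD.tot]
  push_cast
  have ht : (0 : ℝ) ≤ t := Nat.cast_nonneg t
  have hpos : (0 : ℝ) < 2 * ((t : ℝ) + 1) - 1 := by linarith
  have hlo := hD.lo
  have e : (4 * τ - 2 * t - -(4 * τ - 2 * t) / (2 * ((t : ℝ) + 1) - 1)) / 4 - (τ - 1) =
      (τ - (t ^ 2 - t - 1)) / (2 * ((t : ℝ) + 1) - 1) := by
    field_simp
    ring
  have h0 : 0 ≤ (τ - ((t : ℝ) ^ 2 - t - 1)) / (2 * ((t : ℝ) + 1) - 1) :=
    div_nonneg (by linarith) hpos.le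
  linarith

theorem x_l1a {w : V → V → ℝ} {t : ℕ} {τ δ : ℝ} (hD : DX w t τ δ) (hF : Fail w τ δ)
    {A : Finset V} (hM : MaxCut w A) : L1a w t τ δ A := by
  have hw := hD.isW
  have hs := hw.toIsSym
  have hone := hD.one
  have hsm := hD.small
  have hAA : E w A A = τ + 2 * zz w τ A := by unfold zz; ring
  have hAB : E w A Aᶜ = τ + yy w τ A := by unfold yy; ring
  have hBB : E w Aᶜ Aᶜ = τ - 2 * t - 2 * yy w τ A - 2 * zz w τ A := by
    have h1 := E_total hs A
    rw [hD.tot, hAA, hAB] at h1
    linarith
  have z_lo : -δ < zz w τ A := by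
    have h1 := hM.big
    rcases hF A with h | h <;> linarith
  have e_nonneg : ∀ v ∈ A, 0 ≤ ee w A {v} := by
    intro v hv
    have h1 := hM.max (A.erase v)
    have h2 : (A.erase v)ᶜ = insert v Aᶜ := by
      ext x; simp only [Finset.mem_compl, Finset.mem_erase, Finset.mem_insert]; tauto
    have h3 : v ∉ Aᶜ := by simpa using hv
    rw [h2, E_insert_right _ h3, E_erase_left hv, E_erase_left hv, E_self hs,
      E_comm hs A {v}] at h1
    unfold ee; linarith
  have e_sum : ee w A A = yy w τ A - 2 * zz w τ A := by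
    unfold ee; rw [hAA, hAB]; ring
  have dich : ∀ S : Finset V, S ⊆ A → gg w A S < zz w τ A + δ ∨
      t + yy w τ A + zz w τ A - δ < gg w A S + E w S S + ee w A S := by
    intro S hS
    have h1 : E w (A \ S) (A \ S) = τ + 2 * zz w τ A - 2 * gg w A S := by
      rw [E_sdiff_sdiff hs hS, hAA]; unfold gg; ring
    have h2 : (A \ S)ᶜ = Aᶜ ∪ S := by
      ext x; simp only [Finset.mem_compl, Finset.mem_sdiff, Finset.mem_union]; tauto
    have hd : Disjoint Aᶜ S := by
      rw [Finset.disjoint_left]; intro x hx hx'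
      exact (Finset.mem_compl.1 hx) (hS hx')
    have h3 : E w (A \ S)ᶜ (A \ S)ᶜ = τ - 2 * t - 2 * yy w τ A - 2 * zz w τ A +
        2 * gg w A S + 2 * E w S S + 2 * ee w A S := by
      rw [h2, E_union_union hs hd, hBB, E_comm hs Aᶜ S]; unfold gg ee; ring
    rcases hF (A \ S) with h | h
    · left; rw [h1] at h; linarith
    · right; rw [h3] at h; linarith
  have hsub : A \ big w t δ A ⊆ A := Finset.sdiff_subset
  have hsmall : ∀ v ∈ A \ big w t δ A, E w {v} A ≤ t - 4 * δ := by
    intro v hv
    rw [Finset.mem_sdiff] at hv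
    by_contra hc
    push Not at hc
    exact hv.2 (by unfold big; simp only [Finset.mem_filter]; exact ⟨hv.1, hc⟩)
  have key : ∀ S : Finset V, S ⊆ A \ big w t δ A → gg w A S < zz w τ A + δ := by
    intro S
    induction S using Finset.induction_on with
    | empty => intro _; rw [gg_empty]; linarith
    | insert v S hv ih =>
      intro hS
      have hSs : S ⊆ A \ big w t δ A := (Finset.subset_insert v S).trans hS
      have hvA : v ∈ A \ big w t δ A := hS (Finset.mem_insert_self v S)
      have ih' := ih hSs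
      rcases dich (insert v S) (hS.trans hsub) with h | h
      · exact h
      · exfalso
        have h1 := gg_step hw (hSs.trans hsub) (hsub hvA) hv
        have h2 := hsmall v hvA
        have h3 : ee w A (insert v S) ≤ ee w A A := by
          rw [ee_eq_sum, ee_eq_sum A A]
          exact Finset.sum_le_sum_of_subset_of_nonneg (hS.trans hsub)
            (fun u hu _ => e_nonneg u hu)
        rw [e_sum] at h3
        linarith
  have hk := key _ (subset_refl _)
  have rest : E w (A \ big w t δ A) A < 2 * (zz w τ A + δ) := by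
    have := gg_ge_half hw hsub
    linarith
  have hbig : big w t δ A ⊆ A := by unfold big; exact Finset.filter_subset _ _
  have card : t + 1 ≤ (big w t δ A).card := by
    have h1 : E w (big w t δ A) (big w t δ A) = τ + 2 * zz w τ A - 2 * gg w A (A \ big w t δ A) := by
      have h2 : A \ (A \ big w t δ A) = big w t δ A := Finset.sdiff_sdiff_eq_self hbig
      have h3 := E_sdiff_sdiff hs hsub
      rw [h2, hAA] at h3
      rw [h3]; unfold gg; ring
    have h2 := E_self_le hw (big w t δ A)
    by_contra hc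
    push Not at hc
    have hc' : ((big w t δ A).card : ℝ) ≤ t := by exact_mod_cast Nat.lt_succ_iff.1 hc
    have h3 : ((big w t δ A).card : ℝ) * ((big w t δ A).card - 1) ≤ t * (t - 1) := by
      have h0 : (0 : ℝ) ≤ (big w t δ A).card := Nat.cast_nonneg _
      nlinarith
    have h4 := hD.lo
    nlinarith
  exact ⟨z_lo, e_nonneg, e_sum, dich, rest, card⟩

theorem x_l1b {w : V → V → ℝ} {t : ℕ} {τ δ : ℝ} (hD : DX w t τ δ)
    {A : Finset V} (L : L1a w t τ δ A) : LX w t τ δ A := by
  have hw := hD.isW
  have hs := hw.toIsSym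
  have hlo := hD.lo
  have hhi := hD.hi
  have hδ1 := hD.one
  have htδ := hD.small
  have ht : (1600 : ℝ) ≤ t := by linarith
  have hz := L.z_lo
  have hAB : E w A Aᶜ = τ + yy w τ A := by unfold yy; ring
  have hAA : E w A A = τ + 2 * zz w τ A := by unfold zz; ring
  have hBB : E w Aᶜ Aᶜ = τ - 2 * t - 2 * yy w τ A - 2 * zz w τ A := by
    have h1 := E_total hs A
    rw [hD.tot, hAA, hAB] at h1
    linarith
  have heA := L.e_sum
  have e1 : 0 ≤ ee w A A := by rw [ee_eq_sum]; exact Finset.sum_nonneg L.e_nonneg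
  have heS : ∀ S : Finset V, S ⊆ A → ee w A S ≤ yy w τ A - 2 * zz w τ A := by
    intro S hS
    rw [← heA, ee_eq_sum A S, ee_eq_sum A A]
    exact Finset.sum_le_sum_of_subset_of_nonneg hS (fun u hu _ => L.e_nonneg u hu)
  have hBn := E_nonneg hw Aᶜ Aᶜ
  rw [hBB] at hBn
  have hz6 : 6 * zz w τ A ≤ (t : ℝ) ^ 2 - t + δ := by linarith
  have hbig : big w t δ A ⊆ A := by unfold big; exact Finset.filter_subset _ _
  have hbd : ∀ v ∈ big w t δ A, (t : ℝ) - 4 * δ < E w {v} A := by
    intro v hv; unfold big at hv; exact (Finset.mem_filter.1 hv).2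
  have hcard : (t : ℝ) + 1 ≤ (big w t δ A).card := by exact_mod_cast L.card
  have step1 : zz w τ A ≤ t - 5 * δ := by
    by_contra hc
    push Not at hc
    classical
    set D := (big w t δ A).filter fun v => E w {v} A ≤ 2 * t with hDdef
    have hDsub : D ⊆ big w t δ A := Finset.filter_subset _ _
    have hDA : D ⊆ A := hDsub.trans hbig
    have hDcard : (t : ℝ) / 3 ≤ D.card := by
      have h1 : (D.card : ℝ) * (t - 4 * δ) ≤ E w D A := by
        rw [E_eq_sum_left, ← nsmul_eq_mul, ← Finset.sum_const]
        exact Finset.sum_le_sum fun v hv => (hbd v (hDsub hv)).le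
      have h2 : ((big w t δ A \ D).card : ℝ) * (2 * t) ≤ E w (big w t δ A \ D) A := by
        rw [E_eq_sum_left, ← nsmul_eq_mul, ← Finset.sum_const]
        refine Finset.sum_le_sum fun v hv => ?_
        rw [Finset.mem_sdiff] at hv
        by_contra hcc
        push Not at hcc
        exact hv.2 (Finset.mem_filter.2 ⟨hv.1, hcc.le⟩)
      have h3 : E w (big w t δ A \ D) A = E w (big w t δ A) A - E w D A := E_sdiff_left hDsub A
      have h4 : E w (big w t δ A) A ≤ E w A A := E_mono_left hw hbig A
      have h5 : ((big w t δ A \ D).card : ℝ) = (big w t δ A).card - D.card := by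
        rw [Finset.card_sdiff_of_subset hDsub, Nat.cast_sub (Finset.card_le_card hDsub)]
      rw [h5] at h2
      have h6 : ((big w t δ A).card - D.card : ℝ) * (2 * t) + D.card * (t - 4 * δ) ≤
          (t : ℝ) ^ 2 + t + δ + ((t : ℝ) ^ 2 - t + δ) / 3 := by linarith
      have h7 : ((t : ℝ) + 1) * (2 * t) ≤ (big w t δ A).card * (2 * t) :=
        mul_le_mul_of_nonneg_right hcard (by linarith)
      have h8 : (2 * (t : ℝ) ^ 2 + 4 * t) / 3 - 2 * δ ≤ D.card * (t + 4 * δ) := by nlinarith
      by_contra hcc
      push Not at hcc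
      have h9 : (D.card : ℝ) * (t + 4 * δ) ≤ (t / 3) * (t + 4 * δ) :=
        mul_le_mul_of_nonneg_right hcc.le (by linarith)
      nlinarith
    obtain ⟨S0, hS0, hS0c⟩ := Finset.exists_subset_card_eq (s := D) (n := t / 3) (by
      have h1 : ((t / 3 : ℕ) : ℝ) ≤ (t : ℝ) / 3 := Nat.cast_div_le
      exact_mod_cast h1.trans hDcard)
    have hfl1 : ((t / 3 : ℕ) : ℝ) ≤ (t : ℝ) / 3 := Nat.cast_div_le
    have hfl2 : (t : ℝ) / 3 - 1 ≤ ((t / 3 : ℕ) : ℝ) := by
      have h1 : t ≤ 3 * (t / 3) + 2 := by omega
      have h2 : (t : ℝ) ≤ 3 * ((t / 3 : ℕ) : ℝ) + 2 := by exact_mod_cast h1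
      linarith
    have ggl : ∀ S : Finset V, S ⊆ S0 →
        (S.card : ℝ) * (5 * t / 6 - 4 * δ) ≤ gg w A S := by
      intro S hS
      have h1 : (S.card : ℝ) * (t - 4 * δ) ≤ E w S A := by
        rw [E_eq_sum_left, ← nsmul_eq_mul, ← Finset.sum_const]
        exact Finset.sum_le_sum fun v hv => (hbd v (hDsub (hS0 (hS hv)))).le
      have h2 := E_le_card_mul hw S S
      have h3 : (S.card : ℝ) ≤ t / 3 := by
        have : (S.card : ℝ) ≤ S0.card := by exact_mod_cast Finset.card_le_card hS
        rw [hS0c] at this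
        linarith
      have h4 : (0 : ℝ) ≤ S.card := Nat.cast_nonneg _
      unfold gg
      nlinarith [mul_nonneg h4 (sub_nonneg.2 h3)]
    have key : ∀ S : Finset V, S ⊆ S0 → gg w A S < zz w τ A + δ := by
      intro S
      induction S using Finset.induction_on with
      | empty => intro _; simp only [gg, E_empty_left]; linarith
      | insert v S hv ih =>
        intro hS
        have hSs : S ⊆ S0 := (Finset.subset_insert v S).trans hS
        have hvD : v ∈ D := hS0 (hS (Finset.mem_insert_self v S))
        have hvA : v ∈ A := hDA hvD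
        have hSA : S ⊆ A := hSs.trans (hS0.trans hDA)
        have ih' := ih hSs
        rcases L.dich (insert v S) (Finset.insert_subset hvA hSA) with h | h
        · exact h
        · exfalso
          have h1 : gg w A (insert v S) = gg w A S + E w {v} A - E w {v} S := by
            unfold gg; rw [E_insert_left hv, E_insert_insert hs hv]; ring
          have h2 := E_insert_insert hs hv
          have h3 := heS _ (Finset.insert_subset hvA hSA)
          have h4 : E w {v} A ≤ 2 * t := (Finset.mem_filter.1 hvD).2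
          have h5 := E_self_le hw S
          have h6 := E_single_le hw v S
          have h7 := ggl S hSs
          set j : ℝ := (S.card : ℝ) with hj
          have hj0 : 0 ≤ j := Nat.cast_nonneg _
          have hj3 : j ≤ t / 3 := by
            have : (S.card : ℝ) ≤ S0.card := by exact_mod_cast Finset.card_le_card hSs
            rw [hS0c] at this
            linarith
          have h8 : 2 * zz w τ A < t + 2 * δ + j * j := by linarith
          have h9 : j * (5 * t / 6 - 4 * δ) < zz w τ A + δ := by linarith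
          have h10 : j * j ≤ j * (t / 3) := mul_le_mul_of_nonneg_left hj3 hj0
          have h11 : j * (t / 3) ≤ 0.403 * (zz w τ A + δ) := by
            have : j * (t / 3) ≤ 0.403 * (j * (5 * t / 6 - 4 * δ)) := by
              nlinarith [mul_nonneg hj0 (by linarith : (0:ℝ) ≤ t - 1000 * δ),
                mul_nonneg hj0 (by linarith : (0:ℝ) ≤ (t:ℝ))]
            linarith
          linarith
    have h1 := key S0 (subset_refl _)
    have h2 := ggl S0 (subset_refl _)
    rw [hS0c] at h2
    have h3 : ((t : ℝ) / 3 - 1) * (5 * t / 6 - 4 * δ) ≤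
        ((t / 3 : ℕ) : ℝ) * (5 * t / 6 - 4 * δ) :=
      mul_le_mul_of_nonneg_right hfl2 (by linarith)
    nlinarith
  have dB : ∀ v ∈ big w t δ A, t + yy w τ A + zz w τ A - δ < E w {v} Aᶜ := by
    intro v hv
    rcases L.dich {v} (Finset.singleton_subset_iff.2 (hbig hv)) with h | h
    · exfalso
      have h1 := hbd v hv
      unfold gg at h
      rw [E_self hs] at h
      linarith
    · unfold gg ee at h
      rw [E_self hs] at h
      linarith
  have yz : yy w τ A + zz w τ A < 2 * δ := by
    by_contra hc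
    push Not at hc
    have h2 : ((big w t δ A).card : ℝ) * (t + yy w τ A + zz w τ A - δ) ≤ τ + yy w τ A := by
      have h3 : E w (big w t δ A) Aᶜ ≤ E w A Aᶜ := E_mono_left hw hbig _
      have h5 : ((big w t δ A).card : ℝ) * (t + yy w τ A + zz w τ A - δ) ≤
          E w (big w t δ A) Aᶜ := by
        rw [E_eq_sum_left, ← nsmul_eq_mul, ← Finset.sum_const]
        exact Finset.sum_le_sum fun v hv => (dB v hv).le
      linarith
    have h3 : ((t : ℝ) + 1) * (t + yy w τ A + zz w τ A - δ) ≤ τ + yy w τ A :=
      (mul_le_mul_of_nonneg_right hcard (by linarith)).trans h2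
    have h4 : (t : ℝ) * δ ≤ (t : ℝ) * (yy w τ A + zz w τ A - δ) :=
      mul_le_mul_of_nonneg_left (by linarith) (by linarith)
    nlinarith
  exact ⟨L, yz, dB⟩

end

end Pool.Agent.JB
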