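import Pool.Agent.JB.XA
import Pool.Agent.JB.Core
import Pool.Agent.JB.Main
import Pool.Agent.JB.Rest
import Pool.Agent.JB.Gain1
import Pool.Agent.JB.Gain2
import Pool.Agent.JB.Gain

/-!
Judicious bipartitions (MP_abf15b_co): exact values near `C(2t+1,2)`, the structure theorem.
-/

set_option autoImplicit false
set_option linter.unusedSectionVars false
set_option linter.unusedVariables false

namespace Pool.Agent.JB

open Finset

section

variable {V : Type} [Fintype V] [DecidableEq V] {w : V → V → ℝ}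

theorem x_side {t : ℕ} {τ δ : ℝ} (hD : DX w t τ δ) {A : Finset V}
    (L : LX w t τ δ A) (hy : -1 ≤ yy w τ A) :
    (2 * zz w τ A ≤ yy w τ A) ∧
    ((big w t δ A).card : ℝ) ≤ t + 8 * δ ∧
    E w (A \ big w t δ A) univ < 4 * δ + 2 * zz w τ A + yy w τ A ∧
    ∀ v ∈ big w t δ A, 2 * t - 7 * δ ≤ E w {v} univ := by
  have hw := hD.isW
  have hs := hw.toIsSym
  have h1 := hD.one
  have htδ := hD.small
  have ht : (1600 : ℝ) ≤ t := by linarith
  have hz := L.z_lo
  have hyz := L.yz
  have hlo := hD.lo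
  have hhi := hD.hi
  have heA : ee w A A = yy w τ A - 2 * zz w τ A := L.e_sum
  have e1 : 0 ≤ ee w A A := by rw [ee_sum']; exact Finset.sum_nonneg L.e_nonneg
  have huniv : ∀ S : Finset V, E w S univ = E w S A + E w S Aᶜ := by
    intro S; rw [E_compl_right]; ring
  refine ⟨by linarith, ?_, ?_, ?_⟩
  · have h2 : ((big w t δ A).card : ℝ) * (t + yy w τ A + zz w τ A - δ) ≤ τ + yy w τ A := by
      have h3 : E w (big w t δ A) Aᶜ ≤ E w A Aᶜ := E_mono_left hw (big_subset t δ A) _
      have h4 : E w A Aᶜ = τ + yy w τ A := by unfold yy; ring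
      have h5 : ((big w t δ A).card : ℝ) * (t + yy w τ A + zz w τ A - δ) ≤
          E w (big w t δ A) Aᶜ := by
        rw [E_eq_sum_left, ← nsmul_eq_mul, ← Finset.sum_const]
        exact Finset.sum_le_sum fun v hv => (L.dB v hv).le
      linarith
    by_contra hc
    push Not at hc
    set n : ℝ := ((big w t δ A).card : ℝ)
    have h3 : (t : ℝ) - 1 - 2 * δ ≤ t + yy w τ A + zz w τ A - δ := by linarith
    have h4 : (t + 8 * δ) * ((t : ℝ) - 1 - 2 * δ) ≤ n * (t + yy w τ A + zz w τ A - δ) := by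
      have : (0 : ℝ) ≤ t - 1 - 2 * δ := by linarith
      calc (t + 8 * δ) * ((t : ℝ) - 1 - 2 * δ) ≤ n * ((t : ℝ) - 1 - 2 * δ) :=
            mul_le_mul_of_nonneg_right hc.le this
        _ ≤ n * (t + yy w τ A + zz w τ A - δ) :=
            mul_le_mul_of_nonneg_left h3 (by positivity)
    have h5 : yy w τ A < 3 * δ := by linarith
    nlinarith [mul_nonneg (by linarith : (0:ℝ) ≤ δ - 1) (by linarith : (0:ℝ) ≤ (t:ℝ)),
      mul_nonneg (by linarith : (0:ℝ) ≤ δ) (by linarith : (0:ℝ) ≤ (t:ℝ) - 1600 * δ)]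
  · have h2 : E w (A \ big w t δ A) univ = 2 * E w (A \ big w t δ A) A +
        ee w A (A \ big w t δ A) := by
      rw [huniv]; unfold ee; ring
    have h3 : ee w A (A \ big w t δ A) ≤ ee w A A := by
      rw [ee_sum', ee_sum' A A]
      exact Finset.sum_le_sum_of_subset_of_nonneg Finset.sdiff_subset
        (fun u hu _ => L.e_nonneg u hu)
    have h4 := L.rest
    linarith
  · intro v hv
    have h2 := L.dB v hv
    have h3 := (mem_big.1 hv).2
    rw [huniv]
    linarith

/-- the almost complete set -/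
theorem x_core {t : ℕ} {τ δ : ℝ} (hD : DX w t τ δ) (hF : Fail w τ δ) {A : Finset V}
    (hM : MaxCut w A) :
    yy w τ A < 3 * δ ∧ ∃ C : Finset V, 2 * t + 1 ≤ C.card ∧
      (∀ v ∈ C, (C.card : ℝ) - 1 - 50 * (3 / 2 * δ) ≤ E w {v} C) ∧
      E w Cᶜ univ ≤ 14 * δ := by
  have h1 := hD.one
  have hw := hD.isW
  have hs := hw.toIsSym
  have htδ := hD.small
  have ht : (1600 : ℝ) ≤ t := by linarith
  have hlo := hD.lo
  have hhi := hD.hi
  have hAB : E w A Aᶜ = τ + yy w τ A := by unfold yy; ring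
  have hAA : E w A A = τ + 2 * zz w τ A := by unfold zz; ring
  have hBB : E w Aᶜ Aᶜ = τ - 2 * t - 2 * yy w τ A - 2 * zz w τ A := by
    have h1 := E_total hs A
    rw [hD.tot, hAA, hAB] at h1
    linarith
  have hy : -1 ≤ yy w τ A := by
    obtain ⟨S, hS⟩ := x_edw hD
    have := hM.max S
    linarith
  have L := x_l1b hD (x_l1a hD hF hM)
  obtain ⟨s1, s2, s3, s4⟩ := x_side hD L hy
  have hz := L.z_lo
  have hyz := L.yz
  have hcard := L.card
  obtain ⟨v0, hv0, he0⟩ : ∃ v0 ∈ big w t δ A, ee w A {v0} = 0 := by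
    by_contra hc
    push Not at hc
    have h2 : ∀ v ∈ big w t δ A, (1 : ℝ) ≤ ee w A {v} := by
      intro v hv
      have h3 := L.e_nonneg v (big_subset t δ A hv)
      have h4 := hc v hv
      obtain ⟨a, ha⟩ := E_nat hw {v} Aᶜ
      obtain ⟨b, hb⟩ := E_nat hw {v} A
      unfold ee at h3 h4 ⊢
      rw [ha, hb] at h3 h4 ⊢
      have h5 : b ≤ a := by exact_mod_cast sub_nonneg.1 h3
      have h6 : b ≠ a := fun h => h4 (by rw [h]; ring)
      have h7 : b + 1 ≤ a := by omega
      have h8 : (b : ℝ) + 1 ≤ a := by exact_mod_cast h7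
      linarith
    have h3 : ((big w t δ A).card : ℝ) ≤ ∑ v ∈ big w t δ A, ee w A {v} := by
      calc ((big w t δ A).card : ℝ) = ∑ _v ∈ big w t δ A, (1 : ℝ) := by simp
        _ ≤ _ := Finset.sum_le_sum h2
    have h4 : ∑ v ∈ big w t δ A, ee w A {v} ≤ ee w A A := by
      rw [ee_sum' A A]
      exact Finset.sum_le_sum_of_subset_of_nonneg (big_subset t δ A)
        (fun u hu _ => L.e_nonneg u hu)
    have h5 := L.e_sum
    have h6 : (t : ℝ) + 1 ≤ (big w t δ A).card := by exact_mod_cast hcard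
    linarith
  have hv0A : v0 ∈ A := big_subset t δ A hv0
  have hd : E w {v0} Aᶜ = E w {v0} A := by unfold ee at he0; linarith
  have hd1 := L.dB v0 hv0
  obtain ⟨A0, hA0def⟩ : ∃ A0 : Finset V, A0 = insert v0 Aᶜ := ⟨_, rfl⟩
  have hA0c : A0ᶜ = A.erase v0 := by
    subst hA0def
    ext x; simp only [Finset.mem_compl, Finset.mem_erase, Finset.mem_insert]; tauto
  have hv0c : v0 ∉ Aᶜ := by simpa using hv0A
  have hcut : E w A0 A0ᶜ = E w A Aᶜ := by
    rw [hA0c, hA0def, E_insert_left hv0c, E_erase_right _ hv0A, E_erase_right _ hv0A,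
      E_self hs, E_comm hs Aᶜ {v0}, hd, E_comm hs Aᶜ A]
    ring
  have hM0 : MaxCut w A0 := by
    refine ⟨fun S => ?_, ?_⟩
    · rw [hcut]; exact hM.max S
    · rw [hA0c, hA0def, E_erase_erase hs hv0A, E_insert_insert hs hv0c, hAA, hBB, hd]
      rw [hd] at hd1
      linarith
  have hy0 : yy w τ A0 = yy w τ A := by unfold yy; rw [hcut]
  have L0 := x_l1b hD (x_l1a hD hF hM0)
  obtain ⟨r1, r2, r3, r4⟩ := x_side hD L0 (by rw [hy0]; exact hy)
  have hz0 := L0.z_lo
  have hyz0 := L0.yz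
  rw [hy0] at r1 r3 hyz0
  have hcard0 := L0.card
  have hcardC : 2 * t + 1 ≤ (big w t δ A ∪ big w t δ A0).card := by
    have h2 := Finset.card_union_add_card_inter (big w t δ A) (big w t δ A0)
    have h3 : (big w t δ A ∩ big w t δ A0).card ≤ 1 := by
      have : big w t δ A ∩ big w t δ A0 ⊆ {v0} := by
        intro x hx
        rw [Finset.mem_inter] at hx
        have hx1 := big_subset t δ A hx.1
        have hx2 := big_subset t δ A0 hx.2
        rw [hA0def, Finset.mem_insert, Finset.mem_compl] at hx2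
        rw [Finset.mem_singleton]
        tauto
      simpa using Finset.card_le_card this
    omega
  set C := big w t δ A ∪ big w t δ A0 with hC
  have hcC : (C.card : ℝ) ≤ 2 * t + 16 * δ := by
    have : (C.card : ℝ) ≤ (big w t δ A).card + (big w t δ A0).card := by
      exact_mod_cast Finset.card_union_le _ _
    linarith
  have hout : E w Cᶜ univ ≤ 14 * δ := by
    have hsub : Cᶜ ⊆ (A \ big w t δ A) ∪ (A0 \ big w t δ A0) := by
      intro x hx
      rw [Finset.mem_compl, hC, Finset.mem_union] at hx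
      push Not at hx
      rw [Finset.mem_union, Finset.mem_sdiff, Finset.mem_sdiff]
      by_cases hxA : x ∈ A
      · exact Or.inl ⟨hxA, hx.1⟩
      · refine Or.inr ⟨?_, hx.2⟩
        rw [hA0def, Finset.mem_insert, Finset.mem_compl]
        exact Or.inr hxA
    have h2 := E_mono_left hw hsub univ
    have h3 := E_union_le hw (A \ big w t δ A) (A0 \ big w t δ A0) univ
    linarith
  refine ⟨by linarith, C, hcardC, ?_, hout⟩
  intro v hv
  have h2 : 2 * t - 7 * δ ≤ E w {v} univ := by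
    rw [hC, Finset.mem_union] at hv
    rcases hv with hv | hv
    · exact s4 v hv
    · exact r4 v hv
  have h3 := E_compl_right (w := w) {v} C
  have h4 : E w {v} Cᶜ ≤ E w Cᶜ univ := by
    rw [E_comm hs {v} Cᶜ]
    exact E_mono_right hw _ (Finset.subset_univ _)
  linarith

/-- the exact structure: `2t+1` vertices spanning almost everything that is possible -/
theorem x_main {t : ℕ} {τ δ : ℝ} (hD : DX w t τ δ) {ℓ : ℝ}
    (hℓ : (t : ℝ) ^ 2 + t - 2 * δ ≤ ℓ) (hτ : τ - 2 * δ < ℓ)
    (hF : ∀ S : Finset V, ℓ ≤ E w S S ∨ ℓ ≤ E w Sᶜ Sᶜ) :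
    ∃ C : Finset V, C.card = 2 * t + 1 ∧ ℓ + 3 * (t : ℝ) ^ 2 + t ≤ E w C C := by
  classical
  have h1 := hD.one
  have hw := hD.isW
  have hs := hw.toIsSym
  have htδ := hD.small
  have ht : (1600 : ℝ) ≤ t := by linarith
  have hlo := hD.lo
  have hhi := hD.hi
  have hFail : Fail w τ δ := by
    intro S
    rcases hF S with h | h
    · exact Or.inl (lt_of_lt_of_le hτ h)
    · exact Or.inr (lt_of_lt_of_le hτ h)
  obtain ⟨A, hM⟩ := exists_maxCut w hs
  obtain ⟨hy3, C, hC1, hC2, hC3⟩ := x_core hD hFail hM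
  have hAB : E w A Aᶜ = τ + yy w τ A := by unfold yy; ring
  have hC1' : 2 * (t : ℝ) + 1 ≤ C.card := by exact_mod_cast hC1
  -- few missing pairs
  have hmiss : (C.card : ℝ) * (C.card - 1) - E w C C < 108 * (3 / 2 * δ) := by
    by_contra hc
    push Not at hc
    have hDen : Dense w t (3 / 2 * δ) C :=
      ⟨hw, by linarith, by linarith, hC1, hC2, hc⟩
    have h6 := gain (rest swap) gain1 gain2 V w t (3 / 2 * δ) C hDen
    obtain ⟨S, hS⟩ := P_cut hs h6
    have h7 := hM.max S
    rw [hD.tot] at hS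
    rw [hAB] at h7
    linarith
  have hCC : E w C C ≤ 4 * τ - 2 * t := by
    rw [← hD.tot]; exact E_mono hw (Finset.subset_univ _) (Finset.subset_univ _)
  have hcard : C.card = 2 * t + 1 := by
    by_contra hne
    have h2 : 2 * t + 2 ≤ C.card := by omega
    have h3 : 2 * (t : ℝ) + 2 ≤ C.card := by exact_mod_cast h2
    nlinarith
  have hcardR : (C.card : ℝ) = 2 * t + 1 := by rw [hcard]; push_cast; ring
  -- vertices with a missing pair
  set X : Finset V := C.filter fun v => E w {v} C ≠ 2 * t with hX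
  have hle : ∀ v ∈ C, E w {v} C ≤ 2 * t := by
    intro v hv
    have := E_single_le_of_mem hw hv
    rw [hcardR] at this
    linarith
  have hXc : (X.card : ℝ) ≤ 162 * δ := by
    have h2 : ∀ v ∈ X, (1 : ℝ) ≤ 2 * t - E w {v} C := by
      intro v hv
      rw [hX, Finset.mem_filter] at hv
      have h3 := hle v hv.1
      obtain ⟨a, ha⟩ := E_nat hw {v} C
      rw [ha] at h3 ⊢
      have h4 := hv.2
      rw [ha] at h4
      have h5 : a ≤ 2 * t := by exact_mod_cast h3
      have h6 : a ≠ 2 * t := fun h => h4 (by rw [h]; push_cast; ring)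
      have h7 : a + 1 ≤ 2 * t := by omega
      have h8 : (a : ℝ) + 1 ≤ 2 * t := by exact_mod_cast h7
      linarith
    have h3 : (X.card : ℝ) ≤ ∑ v ∈ X, (2 * (t : ℝ) - E w {v} C) := by
      calc (X.card : ℝ) = ∑ _v ∈ X, (1 : ℝ) := by simp
        _ ≤ _ := Finset.sum_le_sum h2
    have h4 : ∑ v ∈ X, (2 * (t : ℝ) - E w {v} C) ≤ ∑ v ∈ C, (2 * (t : ℝ) - E w {v} C) :=
      Finset.sum_le_sum_of_subset_of_nonneg (Finset.filter_subset _ _)
        (fun v hv _ => by have := hle v hv; linarith)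
    have h5 : ∑ v ∈ C, (2 * (t : ℝ) - E w {v} C) = (C.card : ℝ) * (2 * t) - E w C C := by
      rw [Finset.sum_sub_distrib, ← E_eq_sum_left, Finset.sum_const, nsmul_eq_mul]
    rw [hcardR] at hmiss h5
    linarith
  have hXt : X.card ≤ t + 1 := by
    have : (X.card : ℝ) ≤ ((t + 1 : ℕ) : ℝ) := by push_cast; linarith
    exact_mod_cast this
  obtain ⟨S, hXS, hSC, hSc⟩ := Finset.exists_subsuperset_card_eq
    (Finset.filter_subset (fun v => E w {v} C ≠ 2 * t) C) hXt (by omega : t + 1 ≤ C.card)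
  have hSc' : (S.card : ℝ) = t + 1 := by rw [hSc]; push_cast; ring
  have hRc : ((C \ S).card : ℝ) = t := by
    rw [Finset.card_sdiff_of_subset hSC, Nat.cast_sub (Finset.card_le_card hSC), hcardR, hSc']
    ring
  have hR1 : E w (C \ S) C = t * (2 * t) := by
    rw [E_eq_sum_left, Finset.sum_congr rfl (g := fun _ => 2 * (t : ℝ)), Finset.sum_const,
      nsmul_eq_mul, hRc]
    intro v hv
    rw [Finset.mem_sdiff] at hv
    by_contra hne
    exact hv.2 (hXS (Finset.mem_filter.2 ⟨hv.1, hne⟩))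
  have hR2 : E w (C \ S) (C \ S) ≤ t * (t - 1) := by
    have := E_self_le hw (C \ S)
    rw [hRc] at this
    exact this
  have hR3 : E w (C \ S) S = E w (C \ S) C - E w (C \ S) (C \ S) := by
    have := E_sdiff_right (w := w) (C \ S) hSC
    linarith
  have hSS : E w S S ≤ E w C C - 3 * (t : ℝ) ^ 2 - t := by
    have h2 := E_sdiff_left (w := w) hSC C
    have h3 := E_sdiff_right (w := w) S hSC
    have h4 : E w S (C \ S) = E w (C \ S) S := E_comm hs _ _
    nlinarith
  have hTT : E w Sᶜ Sᶜ < ℓ := by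
    have h2 : Sᶜ = (C \ S) ∪ Cᶜ := by
      ext x
      simp only [Finset.mem_compl, Finset.mem_union, Finset.mem_sdiff]
      constructor
      · intro hx
        by_cases hxC : x ∈ C
        · exact Or.inl ⟨hxC, hx⟩
        · exact Or.inr hxC
      · rintro (⟨_, h⟩ | h)
        · exact h
        · exact fun hxS => h (hSC hxS)
    have hd : Disjoint (C \ S) Cᶜ := by
      rw [Finset.disjoint_left]
      intro x hx hx'
      exact (Finset.mem_compl.1 hx') (Finset.mem_sdiff.1 hx).1
    have h3 : E w (C \ S) Cᶜ ≤ E w Cᶜ univ := by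
      rw [E_comm hs (C \ S) Cᶜ]
      exact E_mono_right hw _ (Finset.subset_univ _)
    have h4 : E w Cᶜ Cᶜ ≤ E w Cᶜ univ := E_mono_right hw _ (Finset.subset_univ _)
    rw [h2, E_union_union hs hd]
    nlinarith
  refine ⟨C, hcard, ?_⟩
  rcases hF S with h | h
  · linarith
  · exact absurd h (not_le.2 hTT)

end

end Pool.Agent.JB
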