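import Pool.Agent.JB.XB
import Pool.Agent.JB.Low
import Pool.Agent.JB.Up

/-!
Judicious bipartitions (MP_abf15b_co): exact values of `g` near `C(2t+1,2)` and the extremal
graphs.
-/

set_option autoImplicit false
set_option linter.unusedSectionVars false
set_option linter.unusedVariables false

namespace Pool.Agent.JB

open Finset

/-- missing pairs are monotone -/
theorem x_miss {V : Type} [Fintype V] [DecidableEq V] {w : V → V → ℝ} (hw : IsW w)
    {D C : Finset V} (h : D ⊆ C) :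
    (D.card : ℝ) * (D.card - 1) - E w D D ≤ (C.card : ℝ) * (C.card - 1) - E w C C := by
  have e : ∀ S : Finset V, (S.card : ℝ) * (S.card - 1) - E w S S =
      ∑ v ∈ S, ((S.card : ℝ) - 1 - E w {v} S) := by
    intro S
    rw [Finset.sum_sub_distrib, ← E_eq_sum_left, Finset.sum_const, nsmul_eq_mul]
  rw [e, e]
  calc ∑ v ∈ D, ((D.card : ℝ) - 1 - E w {v} D) ≤ ∑ v ∈ D, ((C.card : ℝ) - 1 - E w {v} C) :=
        Finset.sum_le_sum fun v hv => nonnbr_mono hw hv h
    _ ≤ _ := Finset.sum_le_sum_of_subset_of_nonneg h fun v hv _ => by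
        have := E_single_le_of_mem hw hv
        linarith

section graph

variable {n : ℕ} (G : SimpleGraph (Fin n))

/-- the number of edges of `G` inside `S` -/
noncomputable def eIn (S : Finset (Fin n)) : ℕ :=
  open Classical in (G.edgeFinset.filter (fun e => ∀ v ∈ e, v ∈ S)).card

/-- the 0/1 weight -/
noncomputable def wG : Fin n → Fin n → ℝ :=
  open Classical in fun u v => if G.Adj u v then (1 : ℝ) else 0

theorem wG_isW : IsW (wG G) := by
  classical
  refine ⟨⟨?_, ?_⟩, ?_⟩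
  · intro u v
    simp only [wG, G.adj_comm u v]
  · intro v
    simp [wG]
  · intro u v
    by_cases h : G.Adj u v
    · right; simp [wG, h]
    · left; simp [wG, h]

theorem E_wG (S : Finset (Fin n)) : E (wG G) S S = 2 * (eIn G S : ℝ) := by
  classical
  unfold E wG eIn
  exact low_count G S

theorem eIn_univ : open Classical in eIn G Finset.univ = G.edgeFinset.card := by
  classical
  unfold eIn
  congr 1
  exact Finset.filter_true_of_mem (fun _ _ _ _ => Finset.mem_univ _)

theorem eIn_compl (S : Finset (Fin n)) : open Classical in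
    eIn G Sᶜ = (G.edgeFinset.filter (fun e => ∀ v ∈ e, v ∉ S)).card := by
  classical
  unfold eIn
  congr 1
  exact Finset.filter_congr fun e _ => by simp only [Finset.mem_compl]

theorem gG_le (S : Finset (Fin n)) : gG G ≤ max (eIn G S) (eIn G Sᶜ) := by
  classical
  rw [eIn_compl]
  unfold gG eIn
  exact Nat.sInf_le ⟨S, rfl⟩

theorem gG_mem : ∃ S : Finset (Fin n), gG G = max (eIn G S) (eIn G Sᶜ) := by
  classical
  have hne : ∀ s : Set ℕ, s.Nonempty → sInf s ∈ s := fun s hs => Nat.sInf_mem hs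
  obtain ⟨S, hS⟩ := hne {k : ℕ | ∃ S : Finset (Fin n),
      k = max (G.edgeFinset.filter (fun e => ∀ v ∈ e, v ∈ S)).card
            (G.edgeFinset.filter (fun e => ∀ v ∈ e, v ∉ S)).card} ⟨_, Finset.univ, rfl⟩
  refine ⟨S, ?_⟩
  rw [eIn_compl]
  unfold gG eIn
  exact hS

/-- the key step for graphs -/
theorem x_graph {t : ℕ} (ht : 1600 ≤ t) {s : ℤ} (hs : 1600 * |s| ≤ t) {m : ℕ}
    (hm : (m : ℤ) = t * (2 * t + 1) + s)
    (hG : open Classical in G.edgeFinset.card = m) {K : ℕ} (hK : K ≤ gG G)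
    (hK2 : (t : ℝ) ^ 2 + t + 2 * ((min s 0 : ℤ) : ℝ) ≤ 2 * (K : ℝ)) :
    ∃ C : Finset (Fin n), C.card = 2 * t + 1 ∧
      2 * (K : ℝ) + 3 * (t : ℝ) ^ 2 + t ≤ 2 * (eIn G C : ℝ) := by
  classical
  obtain ⟨δ, hδ⟩ : ∃ δ : ℝ, δ = max 1 (|(s : ℝ)|) := ⟨_, rfl⟩
  have h1 : 1 ≤ δ := by rw [hδ]; exact le_max_left _ _
  have h2 : |(s : ℝ)| ≤ δ := by rw [hδ]; exact le_max_right _ _
  have hsR : 1600 * |(s : ℝ)| ≤ t := by exact_mod_cast hs
  have htR : (1600 : ℝ) ≤ t := by exact_mod_cast ht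
  have h3 : 1600 * δ ≤ t := by
    rw [hδ]
    rcases max_choice (1 : ℝ) (|(s : ℝ)|) with h | h <;> rw [h] <;> linarith
  have hmR : (m : ℝ) = t * (2 * t + 1) + s := by exact_mod_cast hm
  have h4 := abs_le.1 h2
  have hD : DX (wG G) t ((t : ℝ) ^ 2 + t + s / 2) δ := by
    refine ⟨wG_isW G, ?_, ?_, ?_, h1, h3⟩
    · rw [E_wG, eIn_univ, hG, hmR]; ring
    · linarith
    · linarith
  have hmin : (((min s 0 : ℤ) : ℝ) = 0 ∧ 0 ≤ (s : ℝ)) ∨
      (((min s 0 : ℤ) : ℝ) = s ∧ (s : ℝ) < 0) := by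
    rcases le_or_gt 0 s with h | h
    · left
      rw [min_eq_right h]
      exact ⟨by simp, by exact_mod_cast h⟩
    · right
      rw [min_eq_left h.le]
      exact ⟨rfl, by exact_mod_cast h⟩
  have hF : ∀ S : Finset (Fin n), 2 * (K : ℝ) ≤ E (wG G) S S ∨
      2 * (K : ℝ) ≤ E (wG G) Sᶜ Sᶜ := by
    intro S
    rw [E_wG, E_wG]
    rcases le_max_iff.1 (hK.trans (gG_le G S)) with h | h
    · left
      have : (K : ℝ) ≤ eIn G S := by exact_mod_cast h
      linarith
    · right
      have : (K : ℝ) ≤ eIn G Sᶜ := by exact_mod_cast h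
      linarith
  obtain ⟨C, hC1, hC2⟩ := x_main hD (ℓ := 2 * (K : ℝ))
    (by rcases hmin with ⟨e, _⟩ | ⟨e, _⟩ <;> rw [e] at hK2 <;> linarith)
    (by
      rcases hmin with ⟨e, h0⟩ | ⟨e, h0⟩
      · rw [e] at hK2; linarith
      · rw [e] at hK2
        rw [abs_of_neg h0] at h2
        linarith) hF
  refine ⟨C, hC1, ?_⟩
  rw [E_wG] at hC2
  exact hC2

end graph

theorem x_final (t : ℕ) (ht : 1600 ≤ t) (s : ℤ) (hs : 1600 * |s| ≤ t) (m : ℕ)
    (hm : (m : ℤ) = ((2 * t + 1).choose 2 : ℕ) + s) :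
    ((g m : ℤ) = ((t + 1).choose 2 : ℕ) + min s 0) ∧
    ∀ (n : ℕ) (G : SimpleGraph (Fin n)), open Classical in G.edgeFinset.card = m →
      (gG G = g m ↔ ∃ C : Finset (Fin n), C.card = 2 * t + 1 ∧
        (G.edgeFinset.filter (fun e => ∀ v ∈ e, v ∈ C)).card = min m ((2 * t + 1).choose 2)) := by
  classical
  have c1 : (((t + 1).choose 2 : ℕ) : ℝ) = (t : ℝ) * (t + 1) / 2 := by
    rw [Nat.cast_choose_two]; push_cast; ring
  have c2 : (((2 * t + 1).choose 2 : ℕ) : ℝ) = (t : ℝ) * (2 * t + 1) := by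
    rw [Nat.cast_choose_two]; push_cast; ring
  have c2' : (2 * t + 1).choose 2 = t * (2 * t + 1) := by exact_mod_cast c2
  have hm' : (m : ℤ) = t * (2 * t + 1) + s := by
    rw [hm, c2']; push_cast; ring
  have hmR : (m : ℝ) = t * (2 * t + 1) + s := by exact_mod_cast hm'
  have htR : (1600 : ℝ) ≤ t := by exact_mod_cast ht
  have hsR : 1600 * |(s : ℝ)| ≤ t := by exact_mod_cast hs
  -- the claimed value as a natural number
  obtain ⟨k, hk⟩ : ∃ k : ℕ, (k : ℤ) = ((t + 1).choose 2 : ℕ) + min s 0 := by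
    refine ⟨(((t + 1).choose 2 : ℕ) + min s 0).toNat, Int.toNat_of_nonneg ?_⟩
    have h1 : (0 : ℝ) ≤ ((((t + 1).choose 2 : ℕ) + min s 0 : ℤ) : ℝ) := by
      push_cast
      rw [c1]
      have h2 := neg_abs_le (s : ℝ)
      rcases min_choice (s : ℝ) 0 with h | h <;> rw [h] <;> nlinarith
    exact_mod_cast h1
  have hkR : (k : ℝ) = (t : ℝ) * (t + 1) / 2 + ((min s 0 : ℤ) : ℝ) := by
    rw [← c1]; exact_mod_cast hk
  have hminR : (((min m ((2 * t + 1).choose 2) : ℕ)) : ℝ) =
      (t : ℝ) * (2 * t + 1) + ((min s 0 : ℤ) : ℝ) := by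
    rcases le_or_gt 0 s with h | h
    · have h1 : (2 * t + 1).choose 2 ≤ m := by
        have : (((2 * t + 1).choose 2 : ℕ) : ℤ) ≤ m := by linarith
        exact_mod_cast this
      rw [min_eq_right h1, min_eq_right h, c2]; simp
    · have h1 : m ≤ (2 * t + 1).choose 2 := by
        have : (m : ℤ) ≤ (((2 * t + 1).choose 2 : ℕ) : ℤ) := by linarith
        exact_mod_cast this
      rw [min_eq_left h1, min_eq_left h.le, hmR]
  -- inside a set of `2t+1` vertices
  have hcap : ∀ (n : ℕ) (G : SimpleGraph (Fin n)), G.edgeFinset.card = m →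
      ∀ C : Finset (Fin n), C.card = 2 * t + 1 → eIn G C ≤ min m ((2 * t + 1).choose 2) := by
    intro n G hG C hC
    refine le_min ?_ ?_
    · rw [← hG]; unfold eIn; exact Finset.card_filter_le _ _
    · have h1 := E_self_le (wG_isW G) C
      rw [E_wG, hC] at h1
      push_cast at h1
      have h2 : (eIn G C : ℝ) ≤ (((2 * t + 1).choose 2 : ℕ) : ℝ) := by rw [c2]; linarith
      exact_mod_cast h2
  -- upper bound
  have hup : ∀ (n : ℕ) (G : SimpleGraph (Fin n)), G.edgeFinset.card = m → gG G ≤ k := by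
    intro n G hG
    by_contra hc
    push Not at hc
    obtain ⟨C, hC1, hC2⟩ := x_graph G ht hs hm' hG (K := k + 1) hc (by
      have e : ((k + 1 : ℕ) : ℝ) = k + 1 := by push_cast; ring
      rw [e, hkR]; nlinarith)
    have h1 := hcap n G hG C hC1
    have h2 : (eIn G C : ℝ) ≤ (t : ℝ) * (2 * t + 1) + ((min s 0 : ℤ) : ℝ) := by
      rw [← hminR]; exact_mod_cast h1
    have e : ((k + 1 : ℕ) : ℝ) = k + 1 := by push_cast; ring
    rw [e, hkR] at hC2
    nlinarith
  have hgk : g m = k := by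
    refine le_antisymm ?_ ?_
    · unfold g
      refine csSup_le' ?_
      rintro k' ⟨n, G, hG, rfl⟩
      exact hup n G hG
    · have h1 := up_le_g m t
      have h2 : (k : ℤ) ≤ g m := by
        rw [hk]
        rcases le_or_gt 0 s with h | h
        · rw [min_eq_right h]
          have h3 : (2 * t + 1).choose 2 ≤ m := by
            have : (((2 * t + 1).choose 2 : ℕ) : ℤ) ≤ m := by linarith
            exact_mod_cast this
          rw [Nat.sub_eq_zero_of_le h3] at h1
          have : (((t + 1).choose 2 : ℕ) : ℤ) ≤ g m := by exact_mod_cast h1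
          linarith
        · rw [min_eq_left h.le]
          have h3 : m ≤ (2 * t + 1).choose 2 := by
            have : (m : ℤ) ≤ (((2 * t + 1).choose 2 : ℕ) : ℤ) := by linarith
            exact_mod_cast this
          have h4 : (((t + 1).choose 2 : ℕ) : ℤ) ≤ g m + ((((2 * t + 1).choose 2 : ℕ) : ℤ) - m) := by
            rw [← Nat.cast_sub h3]; exact_mod_cast h1
          linarith
      exact_mod_cast h2
  refine ⟨by rw [hgk]; exact hk, ?_⟩
  intro n G hG
  rw [hgk]
  constructor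
  · intro hgG
    obtain ⟨C, hC1, hC2⟩ := x_graph G ht hs hm' hG (K := k) hgG.ge (by rw [hkR]; nlinarith)
    refine ⟨C, hC1, le_antisymm (hcap n G hG C hC1) ?_⟩
    have h1 : ((min m ((2 * t + 1).choose 2) : ℕ) : ℝ) ≤ (eIn G C : ℝ) := by
      rw [hminR]; rw [hkR] at hC2; nlinarith
    exact_mod_cast h1
  · rintro ⟨C, hC1, hC2⟩
    refine le_antisymm (hup n G hG) ?_
    obtain ⟨S, hS⟩ := gG_mem G
    rw [hS]
    have hC2' : (eIn G C : ℝ) = (t : ℝ) * (2 * t + 1) + ((min s 0 : ℤ) : ℝ) := by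
      rw [← hminR]; exact_mod_cast hC2
    have key : ∀ D : Finset (Fin n), D ⊆ C → t + 1 ≤ D.card → ∀ S : Finset (Fin n), D ⊆ S →
        k ≤ eIn G S := by
      intro D hD hDc S hDS
      have hw := wG_isW G
      have h1 := x_miss hw hD
      have h2 := E_mono hw hDS hDS
      rw [E_wG G S] at h2
      have hC1R : (C.card : ℝ) = 2 * t + 1 := by rw [hC1]; push_cast; ring
      rw [E_wG G C, hC1R, hC2'] at h1
      have h3 : (t : ℝ) + 1 ≤ D.card := by exact_mod_cast hDc
      have h4 : ((t : ℝ) + 1) * t ≤ (D.card : ℝ) * (D.card - 1) := by nlinarith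
      have h5 : (k : ℝ) ≤ eIn G S := by rw [hkR]; nlinarith
      exact_mod_cast h5
    have hsplit := Finset.card_filter_add_card_filter_not (s := C) (fun v => v ∈ S)
    by_cases h : t + 1 ≤ (C.filter (fun v => v ∈ S)).card
    · refine le_max_of_le_left (key _ (Finset.filter_subset _ _) h S ?_)
      intro v hv
      exact (Finset.mem_filter.1 hv).2
    · refine le_max_of_le_right (key _ (Finset.filter_subset (fun v => ¬ v ∈ S) C)
        (by omega) Sᶜ ?_)
      intro v hv
      exact Finset.mem_compl.2 (Finset.mem_filter.1 hv).2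

end Pool.Agent.JB
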